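import Pool.Agent.K9h3.TC.Vga

/-!
# Logarithmic vector fields along a rational curve in a complete intersection surface

The algebra over `ℂ[X]`: reduction of three vectors in the kernel of a matrix with `s` rows and
`s + 3` columns to vectors of length three.
-/

set_option autoImplicit false

open Polynomial Matrix

namespace Pool.Agent.K9h3.CV

open Pool.Agent.K9h3.TC.VG

section ring

variable {R : Type} [CommRing R] {s : ℕ}

/-- the last `s` columns -/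
def sq (T : Matrix (Fin s) (Fin 3 ⊕ Fin s) R) : Matrix (Fin s) (Fin s) R := T.submatrix id Sum.inr

/-- the first three columns -/
def lf (T : Matrix (Fin s) (Fin 3 ⊕ Fin s) R) : Matrix (Fin s) (Fin 3) R := T.submatrix id Sum.inl

/-- the first three entries -/
def fs (w : Fin 3 ⊕ Fin s → R) : Fin 3 → R := fun i => w (Sum.inl i)

/-- the last entries -/
def ls (w : Fin 3 ⊕ Fin s → R) : Fin s → R := fun i => w (Sum.inr i)

theorem mulVec_eq (T : Matrix (Fin s) (Fin 3 ⊕ Fin s) R) (w : Fin 3 ⊕ Fin s → R) :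
    T *ᵥ w = lf T *ᵥ fs w + sq T *ᵥ ls w := by
  funext i
  show ∑ j, T i j * w j = ∑ j, T i (Sum.inl j) * w (Sum.inl j) + ∑ j, T i (Sum.inr j) * w (Sum.inr j)
  rw [Fintype.sum_sum_type]

theorem dot_eq (g w : Fin 3 ⊕ Fin s → R) : g ⬝ᵥ w = fs g ⬝ᵥ fs w + ls g ⬝ᵥ ls w := by
  show ∑ j, g j * w j = _
  rw [Fintype.sum_sum_type]
  rfl

theorem dp_eq (g w : Fin 3 → R) : g ⬝ᵥ w = dp g w := by
  show ∑ j, g j * w j = _
  rw [Fin.sum_univ_three]
  rfl

/-- the reduced covector -/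
noncomputable def red (T : Matrix (Fin s) (Fin 3 ⊕ Fin s) R) (g : Fin 3 ⊕ Fin s → R) : Fin 3 → R :=
  (sq T).det • fs g - (ls g ᵥ* (sq T).adjugate) ᵥ* lf T

theorem red_dp {T : Matrix (Fin s) (Fin 3 ⊕ Fin s) R} {w : Fin 3 ⊕ Fin s → R} (hw : T *ᵥ w = 0)
    (g : Fin 3 ⊕ Fin s → R) : dp (red T g) (fs w) = (sq T).det * (g ⬝ᵥ w) := by
  have h1 : lf T *ᵥ fs w = - (sq T *ᵥ ls w) := by
    rw [mulVec_eq] at hw
    exact eq_neg_of_add_eq_zero_left hw
  rw [← dp_eq, red, sub_dotProduct, smul_dotProduct, ← dotProduct_mulVec (ls g ᵥ* (sq T).adjugate),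
    h1, dotProduct_neg, ← dotProduct_mulVec, mulVec_mulVec, adjugate_mul, smul_mulVec, one_mulVec,
    dotProduct_smul, dot_eq, smul_eq_mul, smul_eq_mul]
  ring

theorem red_add (T : Matrix (Fin s) (Fin 3 ⊕ Fin s) R) (g h : Fin 3 ⊕ Fin s → R) :
    red T (g + h) = red T g + red T h := by
  have e1 : fs (g + h) = fs g + fs h := rfl
  have e2 : ls (g + h) = ls g + ls h := rfl
  unfold red
  rw [e1, e2, smul_add, add_vecMul, add_vecMul]
  abel

theorem red_smul (T : Matrix (Fin s) (Fin 3 ⊕ Fin s) R) (c : R) (g : Fin 3 ⊕ Fin s → R) :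
    red T (c • g) = c • red T g := by
  have e1 : fs (c • g) = c • fs g := rfl
  have e2 : ls (c • g) = c • ls g := rfl
  unfold red
  rw [e1, e2, smul_vecMul, smul_vecMul, smul_sub, smul_comm]

/-- the fundamental identity for determinants -/
theorem det_id {T : Matrix (Fin s) (Fin 3 ⊕ Fin s) R} (Φ : Matrix (Fin 3 ⊕ Fin s) (Fin 3) R)
    (hΦ : T * Φ = 0) (Z : Matrix (Fin 3 ⊕ Fin s) (Fin s) R) :
    (sq T).det * (fromBlocks (Φ.submatrix Sum.inl id) (Z.submatrix Sum.inl id)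
      (Φ.submatrix Sum.inr id) (Z.submatrix Sum.inr id)).det =
    (Φ.submatrix Sum.inl id).det * (T * Z).det := by
  have h1 : ∀ (m : ℕ) (Y : Matrix (Fin 3 ⊕ Fin s) (Fin m) R),
      lf T * Y.submatrix Sum.inl id + sq T * Y.submatrix Sum.inr id = T * Y := by
    intro m Y
    ext i j
    show ∑ k, T i (Sum.inl k) * Y (Sum.inl k) j + ∑ k, T i (Sum.inr k) * Y (Sum.inr k) j =
      ∑ k, T i k * Y k j
    rw [Fintype.sum_sum_type]
  have h2 : fromBlocks (1 : Matrix (Fin 3) (Fin 3) R) 0 (lf T) (sq T) *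
      fromBlocks (Φ.submatrix Sum.inl id) (Z.submatrix Sum.inl id)
      (Φ.submatrix Sum.inr id) (Z.submatrix Sum.inr id) =
      fromBlocks (Φ.submatrix Sum.inl id) (Z.submatrix Sum.inl id) 0 (T * Z) := by
    rw [fromBlocks_multiply, h1, h1, hΦ]
    simp
  have h3 := congrArg Matrix.det h2
  rw [det_mul, det_fromBlocks_zero₁₂, det_fromBlocks_zero₂₁, det_one, one_mul] at h3
  exact h3

end ring

/-- the matrix with three given columns -/
def cols {R : Type} {ι : Type} (u v w : ι → R) : Matrix ι (Fin 3) R := fun i => ![u i, v i, w i]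

theorem det_cols {R : Type} [CommRing R] {s : ℕ} (u v w : Fin 3 ⊕ Fin s → R) :
    ((cols u v w).submatrix Sum.inl id).det = dd (fs u) (fs v) (fs w) := by
  rw [det_fin_three, dd_eq]
  show u (Sum.inl 0) * v (Sum.inl 1) * w (Sum.inl 2) - u (Sum.inl 0) * w (Sum.inl 1) * v (Sum.inl 2)
    - v (Sum.inl 0) * u (Sum.inl 1) * w (Sum.inl 2) + v (Sum.inl 0) * w (Sum.inl 1) * u (Sum.inl 2)
    + w (Sum.inl 0) * u (Sum.inl 1) * v (Sum.inl 2) - w (Sum.inl 0) * v (Sum.inl 1) * u (Sum.inl 2)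
    = (u (Sum.inl 1) * v (Sum.inl 2) - u (Sum.inl 2) * v (Sum.inl 1)) * w (Sum.inl 0) +
      (u (Sum.inl 2) * v (Sum.inl 0) - u (Sum.inl 0) * v (Sum.inl 2)) * w (Sum.inl 1) +
      (u (Sum.inl 0) * v (Sum.inl 1) - u (Sum.inl 1) * v (Sum.inl 0)) * w (Sum.inl 2)
  ring

theorem mul_cols {R : Type} [CommRing R] {s : ℕ} {T : Matrix (Fin s) (Fin 3 ⊕ Fin s) R}
    {u v w : Fin 3 ⊕ Fin s → R} (hu : T *ᵥ u = 0) (hv : T *ᵥ v = 0) (hw : T *ᵥ w = 0) :
    T * cols u v w = 0 := by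
  ext i j
  fin_cases j
  · exact congrFun hu i
  · exact congrFun hv i
  · exact congrFun hw i

variable {s : ℕ}

/-- values at a point -/
noncomputable def ev (t : ℂ) (T : Matrix (Fin s) (Fin 3 ⊕ Fin s) ℂ[X]) :
    Matrix (Fin s) (Fin 3 ⊕ Fin s) ℂ := T.map (eval t)

theorem det_sq_ev (t : ℂ) (T : Matrix (Fin s) (Fin 3 ⊕ Fin s) ℂ[X]) :
    (sq T).det.eval t = (sq (ev t T)).det := by
  have h := RingHom.map_det (evalRingHom t) (sq T)
  rw [coe_evalRingHom] at h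
  rw [h]
  rfl

/-- divisibility at a root -/
theorem dvd_of_roots {D0 : ℂ[X]} (hD : D0 ≠ 0) {F : ℂ[X]} (Y : Set ℂ[X])
    (hY : ∀ t : ℂ, ∃ y ∈ Y, y.eval t ≠ 0) (h : ∀ y ∈ Y, D0 ∣ F * y) : D0 ∣ F := by
  induction hn : D0.natDegree generalizing D0 with
  | zero =>
    rw [natDegree_eq_zero] at hn
    obtain ⟨c, rfl⟩ := hn
    have hc : c ≠ 0 := fun h => hD (by rw [h, C_0])
    exact ⟨C c⁻¹ * F, by rw [← mul_assoc, ← C_mul, mul_inv_cancel₀ hc, C_1, one_mul]⟩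
  | succ n ih =>
    have hdeg : D0.degree ≠ 0 := by
      intro h0
      have := natDegree_eq_of_degree_eq_some (n := 0) h0
      omega
    obtain ⟨t, ht⟩ := IsAlgClosed.exists_root D0 hdeg
    obtain ⟨D1, hD1⟩ := dvd_iff_isRoot.2 ht
    have hD10 : D1 ≠ 0 := by
      rintro rfl
      rw [mul_zero] at hD1
      exact hD hD1
    have hn1 : D1.natDegree = n := by
      rw [hD1, natDegree_mul (X_sub_C_ne_zero t) hD10, natDegree_X_sub_C] at hn
      omega
    obtain ⟨F1, hF1⟩ := ih hD10 (fun y hy => (Dvd.intro_left _ hD1.symm).trans (h y hy)) hn1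
    obtain ⟨y, hy, hyt⟩ := hY t
    have h1 := h y hy
    rw [hD1, hF1, mul_comm (X - C t) D1, mul_assoc] at h1
    have h2 := (mul_dvd_mul_iff_left hD10).1 h1
    have h3 : (X - C t) ∣ F1 := by
      refine (prime_X_sub_C t).dvd_or_dvd h2 |>.resolve_right fun h4 => ?_
      exact hyt (dvd_iff_isRoot.1 h4)
    rw [hD1, hF1, mul_comm (X - C t) D1]
    exact mul_dvd_mul_left _ h3

/-- the determinant of the last columns divides the determinant of the first entries -/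
theorem det_dvd {T : Matrix (Fin s) (Fin 3 ⊕ Fin s) ℂ[X]} {u v w : Fin 3 ⊕ Fin s → ℂ[X]}
    (hu : T *ᵥ u = 0) (hv : T *ᵥ v = 0) (hw : T *ᵥ w = 0) (hD : (sq T).det ≠ 0)
    (hT : ∀ t : ℂ, ∃ Z : Matrix (Fin 3 ⊕ Fin s) (Fin s) ℂ, (ev t T * Z).det ≠ 0) :
    (sq T).det ∣ dd (fs u) (fs v) (fs w) := by
  refine dvd_of_roots hD {y | ∃ Z : Matrix (Fin 3 ⊕ Fin s) (Fin s) ℂ, y = (T * Z.map C).det}
    (fun t => ?_) ?_
  · obtain ⟨Z, hZ⟩ := hT t
    refine ⟨_, ⟨Z, rfl⟩, ?_⟩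
    have h := RingHom.map_det (evalRingHom t) (T * Z.map C)
    rw [coe_evalRingHom] at h
    rw [h]
    have h2 : (evalRingHom t).mapMatrix (T * Z.map C) = ev t T * Z := by
      show (T * Z.map C).map (evalRingHom t) = ev t T * Z
      rw [Matrix.map_mul]
      have h3 : (Z.map C).map (evalRingHom t) = Z := by
        ext i j
        show eval t (C (Z i j)) = Z i j
        exact eval_C
      rw [h3]
      rfl
    rw [h2]
    exact hZ
  · rintro _ ⟨Z, rfl⟩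
    rw [← det_cols, ← det_id (cols u v w) (mul_cols hu hv hw) (Z.map C)]
    exact dvd_mul_right _ _

/-- a covector outside the row space has nonzero reduction -/
theorem red_ne_zero {T : Matrix (Fin s) (Fin 3 ⊕ Fin s) ℂ} (hD : (sq T).det ≠ 0)
    {g : Fin 3 ⊕ Fin s → ℂ} (h : red T g = 0) : ∃ y : Fin s → ℂ, g = y ᵥ* T := by
  refine ⟨((sq T).det)⁻¹ • (ls g ᵥ* (sq T).adjugate), ?_⟩
  unfold red at h
  rw [sub_eq_zero] at h
  funext j
  rcases j with j | j
  · have h1 := congrFun h j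
    show g (Sum.inl j) = ∑ i, (((sq T).det)⁻¹ • (ls g ᵥ* (sq T).adjugate)) i * T i (Sum.inl j)
    have h2 : ((ls g ᵥ* (sq T).adjugate) ᵥ* lf T) j = ∑ i, (ls g ᵥ* (sq T).adjugate) i * T i (Sum.inl j) :=
      rfl
    rw [h2] at h1
    simp only [Pi.smul_apply, smul_eq_mul, mul_assoc]
    rw [← Finset.mul_sum, ← h1]
    show g (Sum.inl j) = ((sq T).det)⁻¹ * ((sq T).det * g (Sum.inl j))
    rw [← mul_assoc, inv_mul_cancel₀ hD, one_mul]
  · show g (Sum.inr j) = ∑ i, (((sq T).det)⁻¹ • (ls g ᵥ* (sq T).adjugate)) i * T i (Sum.inr j)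
    have h1 : (ls g ᵥ* (sq T).adjugate) ᵥ* sq T = (sq T).det • ls g := by
      rw [vecMul_vecMul, adjugate_mul, vecMul_smul, vecMul_one]
    have h2 := congrFun h1 j
    have h3 : ((ls g ᵥ* (sq T).adjugate) ᵥ* sq T) j = ∑ i, (ls g ᵥ* (sq T).adjugate) i * T i (Sum.inr j) :=
      rfl
    rw [h3] at h2
    simp only [Pi.smul_apply, smul_eq_mul, mul_assoc]
    rw [← Finset.mul_sum, h2]
    show g (Sum.inr j) = ((sq T).det)⁻¹ * ((sq T).det * g (Sum.inr j))
    rw [← mul_assoc, inv_mul_cancel₀ hD, one_mul]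

end Pool.Agent.K9h3.CV
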