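import Pool.Agent.K9h3.CV.A

/-!
# Vanishing of the determinant of logarithmic vector fields of small degree
-/

set_option autoImplicit false

open Polynomial Matrix

namespace Pool.Agent.K9h3.CV

open Pool.Agent.K9h3.TC.VG

variable {s : ℕ}

theorem red_map {R S : Type} [CommRing R] [CommRing S] (f : R →+* S)
    (T : Matrix (Fin s) (Fin 3 ⊕ Fin s) R) (g : Fin 3 ⊕ Fin s → R) (i : Fin 3) :
    f (red T g i) = red (T.map f) (fun j => f (g j)) i := by
  have h1 : f (sq T).det = (sq (T.map f)).det := RingHom.map_det f (sq T)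
  have h2 : ∀ i j, f ((sq T).adjugate i j) = (sq (T.map f)).adjugate i j := by
    intro i j
    have h := RingHom.map_adjugate f (sq T)
    exact congrFun (congrFun h i) j
  show f ((sq T).det * g (Sum.inl i) - ∑ k, (∑ j, g (Sum.inr j) * (sq T).adjugate j k) *
    T k (Sum.inl i)) = (sq (T.map f)).det * f (g (Sum.inl i)) -
    ∑ k, (∑ j, f (g (Sum.inr j)) * (sq (T.map f)).adjugate j k) * f (T k (Sum.inl i))
  rw [map_sub, map_mul, h1, map_sum]
  congr 1
  refine Finset.sum_congr rfl fun k _ => ?_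
  rw [map_mul, map_sum]
  congr 1
  refine Finset.sum_congr rfl fun j _ => ?_
  rw [map_mul, h2]

theorem par {a b : Fin 3 → ℂ} (h : cp a b = 0) {j : Fin 3} (hj : a j ≠ 0) :
    b = (b j / a j) • a := by
  have h0 : a 1 * b 2 - a 2 * b 1 = 0 := congrFun h 0
  have h1 : a 2 * b 0 - a 0 * b 2 = 0 := congrFun h 1
  have h2 : a 0 * b 1 - a 1 * b 0 = 0 := congrFun h 2
  have key : ∀ i, b i * a j = b j * a i := by
    intro i
    fin_cases j <;> fin_cases i <;> simp only [Fin.zero_eta, Fin.mk_one, Fin.reduceFinMk] <;>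
      first
        | rfl
        | linear_combination h0
        | linear_combination - h0
        | linear_combination h1
        | linear_combination - h1
        | linear_combination h2
        | linear_combination - h2
  funext i
  rw [Pi.smul_apply, smul_eq_mul, div_mul_eq_mul_div, eq_div_iff hj, key i]

theorem cp_coeff0 (u v : Fin 3 → ℂ[X]) (i : Fin 3) :
    (cp u v i).coeff 0 = cp (fun i => (u i).coeff 0) (fun i => (v i).coeff 0) i := by
  fin_cases i
  · show (u 1 * v 2 - u 2 * v 1).coeff 0 = _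
    simp [mul_coeff_zero, cp]
  · show (u 2 * v 0 - u 0 * v 2).coeff 0 = _
    simp [mul_coeff_zero, cp]
  · show (u 0 * v 1 - u 1 * v 0).coeff 0 = _
    simp [mul_coeff_zero, cp]

/-- local vanishing at the origin -/
theorem loc0 {T : Matrix (Fin s) (Fin 3 ⊕ Fin s) ℂ[X]} {u v w g h : Fin 3 ⊕ Fin s → ℂ[X]}
    {k l : ℕ} (Tu : T *ᵥ u = 0) (Tv : T *ᵥ v = 0) (Tw : T *ᵥ w = 0)
    (gu : X ^ k ∣ g ⬝ᵥ u) (gv : X ^ k ∣ g ⬝ᵥ v) (gw : X ^ k ∣ g ⬝ᵥ w)
    (hu : X ^ l ∣ h ⬝ᵥ u) (hv : X ^ l ∣ h ⬝ᵥ v) (hw : X ^ l ∣ h ⬝ᵥ w)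
    (hD : (sq T).det.coeff 0 ≠ 0)
    (n0 : k ≠ 0 → ∀ y : Fin s → ℂ, (fun j => (g j).coeff 0) ≠ y ᵥ* (T.map fun p => p.coeff 0))
    (n1 : l ≠ 0 → ∀ y : Fin s → ℂ, (fun j => (h j).coeff 0) ≠ y ᵥ* (T.map fun p => p.coeff 0))
    (n2 : k ≠ 0 → l ≠ 0 → ∀ (c : ℂ) (y : Fin s → ℂ), (fun j => (h j).coeff 0) ≠
      c • (fun j => (g j).coeff 0) + y ᵥ* (T.map fun p => p.coeff 0)) :
    X ^ (k + l) ∣ dd (fs u) (fs v) (fs w) := by
  have hc : ∀ (g : Fin 3 ⊕ Fin s → ℂ[X]) (i : Fin 3), (red T g i).coeff 0 =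
      red (T.map fun p => p.coeff 0) (fun j => (g j).coeff 0) i := fun g i =>
    red_map (constantCoeff) T g i
  have hD' : (sq (T.map fun p => p.coeff 0)).det ≠ 0 := by
    have h1 := RingHom.map_det (constantCoeff (R := ℂ)) (sq T)
    rw [constantCoeff_apply] at h1
    intro h0
    apply hD
    rw [h1]
    exact h0
  have hne : ∀ g : Fin 3 ⊕ Fin s → ℂ[X],
      (∀ y : Fin s → ℂ, (fun j => (g j).coeff 0) ≠ y ᵥ* (T.map fun p => p.coeff 0)) →
      ∃ i, (red T g i).coeff 0 ≠ 0 := by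
    intro g hg
    by_contra hcon
    push Not at hcon
    obtain ⟨y, hy⟩ := red_ne_zero hD' (g := fun j => (g j).coeff 0) (by
      funext i
      rw [← hc]
      exact hcon i)
    exact hg y hy
  refine dvd_dd (g := red T g) (h := red T h) ?_ ?_ ?_ ?_ ?_ ?_ (fun hk => hne g (n0 hk))
    (fun hl => hne h (n1 hl)) ?_
  · rw [red_dp Tu]; exact gu.mul_left _
  · rw [red_dp Tv]; exact gv.mul_left _
  · rw [red_dp Tw]; exact gw.mul_left _
  · rw [red_dp Tu]; exact hu.mul_left _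
  · rw [red_dp Tv]; exact hv.mul_left _
  · rw [red_dp Tw]; exact hw.mul_left _
  · intro hk hl
    by_contra hcon
    push Not at hcon
    obtain ⟨j, hj⟩ := hne g (n0 hk)
    have h1 : cp (fun i => (red T g i).coeff 0) (fun i => (red T h i).coeff 0) = 0 := by
      funext i
      rw [← cp_coeff0]
      exact hcon i
    have h2 := par h1 hj
    set c : ℂ := (red T h j).coeff 0 / (red T g j).coeff 0
    have h3 : red (T.map fun p => p.coeff 0) ((fun j => (h j).coeff 0) +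
        (-c) • fun j => (g j).coeff 0) = 0 := by
      rw [red_add, red_smul]
      funext i
      have h4 := congrFun h2 i
      simp only [Pi.smul_apply, smul_eq_mul] at h4
      show red (T.map fun p => p.coeff 0) (fun j => (h j).coeff 0) i +
        (-c) * red (T.map fun p => p.coeff 0) (fun j => (g j).coeff 0) i = 0
      rw [← hc, ← hc, h4]
      ring
    obtain ⟨y, hy⟩ := red_ne_zero hD' h3
    refine n2 hk hl c y ?_
    rw [← hy]
    funext i
    simp only [Pi.add_apply, Pi.smul_apply, smul_eq_mul]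
    ring

theorem prod_top {ι : Type} (S : Finset ι) (f : ι → ℂ[X]) (n : ι → ℕ)
    (h : ∀ i ∈ S, (f i).natDegree ≤ n i) :
    (∏ i ∈ S, f i).natDegree ≤ ∑ i ∈ S, n i ∧
      (∏ i ∈ S, f i).coeff (∑ i ∈ S, n i) = ∏ i ∈ S, (f i).coeff (n i) := by
  classical
  induction S using Finset.induction_on with
  | empty => simp
  | insert j S hj ih =>
    obtain ⟨h1, h2⟩ := ih fun i hi => h i (Finset.mem_insert_of_mem hi)
    have h3 := h j (Finset.mem_insert_self _ _)
    rw [Finset.prod_insert hj, Finset.sum_insert hj, Finset.prod_insert hj]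
    exact ⟨natDegree_mul_le.trans (add_le_add h3 h1), by
      rw [coeff_mul_add_eq_of_natDegree_le h3 h1, h2]⟩

/-- the top coefficient of a determinant with bounds for the degrees of the rows -/
theorem det_top {A : Matrix (Fin s) (Fin s) ℂ[X]} {τ : Fin s → ℕ}
    (h : ∀ i j, (A i j).natDegree ≤ τ i) :
    A.det.natDegree ≤ ∑ i, τ i ∧
      A.det.coeff (∑ i, τ i) = (Matrix.of fun i j => (A i j).coeff (τ i)).det := by
  have hs : ∀ σ : Equiv.Perm (Fin s), ∑ i, τ (σ i) = ∑ i, τ i := fun σ => Equiv.sum_comp σ τ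
  have hp : ∀ σ : Equiv.Perm (Fin s), (∏ i, A (σ i) i).natDegree ≤ ∑ i, τ i ∧
      (∏ i, A (σ i) i).coeff (∑ i, τ i) = ∏ i, (A (σ i) i).coeff (τ (σ i)) := by
    intro σ
    have := prod_top Finset.univ (fun i => A (σ i) i) (fun i => τ (σ i)) fun i _ => h _ _
    rwa [hs] at this
  rw [det_apply, det_apply]
  constructor
  · refine natDegree_sum_le_of_forall_le _ _ fun σ _ => ?_
    exact (natDegree_smul_le _ _).trans (hp σ).1
  · rw [finsetSum_coeff]
    refine Finset.sum_congr rfl fun σ _ => ?_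
    rw [coeff_smul, (hp σ).2]
    rfl

theorem ref_zero (N : ℕ) : reflect N (0 : ℂ[X]) = 0 := by
  ext n
  rw [coeff_reflect, coeff_zero, coeff_zero]

theorem ref_sum {ι : Type} (S : Finset ι) (f : ι → ℂ[X]) (N : ℕ) :
    reflect N (∑ i ∈ S, f i) = ∑ i ∈ S, reflect N (f i) := by
  ext n
  rw [coeff_reflect, finsetSum_coeff, finsetSum_coeff]
  exact Finset.sum_congr rfl fun i _ => (coeff_reflect _ _ _).symm

theorem ref_dot {ι : Type} [Fintype ι] {g w : ι → ℂ[X]} {m n : ℕ}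
    (hg : ∀ i, (g i).natDegree ≤ m) (hw : ∀ i, (w i).natDegree ≤ n) :
    (fun i => reflect m (g i)) ⬝ᵥ (fun i => reflect n (w i)) = reflect (m + n) (g ⬝ᵥ w) := by
  show ∑ i, reflect m (g i) * reflect n (w i) = reflect (m + n) (∑ i, g i * w i)
  rw [ref_sum]
  exact Finset.sum_congr rfl fun i _ => (reflect_mul _ _ (hg i) (hw i)).symm

/-- **vanishing of the determinant of logarithmic vector fields of small degree** -/
theorem dd_zero' {T : Matrix (Fin s) (Fin 3 ⊕ Fin s) ℂ[X]} {u v w g h : Fin 3 ⊕ Fin s → ℂ[X]}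
    {τ : Fin s → ℕ} {e r m n k l : ℕ} {c1 c2 d1 d2 : ℂ} {p q : ℂ[X]}
    (dT : ∀ i j, (T i j).natDegree ≤ τ i)
    (du : ∀ i, (u i).natDegree ≤ e) (dv : ∀ i, (v i).natDegree ≤ e)
    (dw : ∀ i, (w i).natDegree ≤ e + r) (dg : ∀ i, (g i).natDegree ≤ m)
    (dh : ∀ i, (h i).natDegree ≤ n)
    (Tu : T *ᵥ u = 0) (Tv : T *ᵥ v = 0) (Tw : T *ᵥ w = 0)
    (gu : g ⬝ᵥ u = C c1 * X ^ k) (gv : g ⬝ᵥ v = C c2 * X ^ k) (gw : g ⬝ᵥ w = p * X ^ k)
    (dp' : p.natDegree ≤ r)
    (hu : h ⬝ᵥ u = C d1 * X ^ l) (hv : h ⬝ᵥ v = C d2 * X ^ l) (hw : h ⬝ᵥ w = q * X ^ l)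
    (dq : q.natDegree ≤ r) (hk : k ≤ m + e) (hl : l ≤ n + e)
    (full : ∀ t : ℂ, ∃ Z : Matrix (Fin 3 ⊕ Fin s) (Fin s) ℂ, (ev t T * Z).det ≠ 0)
    (D0 : (sq T).det.coeff 0 ≠ 0)
    (D1 : (Matrix.of fun i j => (T i (Sum.inr j)).coeff (τ i)).det ≠ 0)
    (z0 : k ≠ 0 → ∀ y : Fin s → ℂ, (fun j => (g j).coeff 0) ≠ y ᵥ* (T.map fun p => p.coeff 0))
    (z1 : l ≠ 0 → ∀ y : Fin s → ℂ, (fun j => (h j).coeff 0) ≠ y ᵥ* (T.map fun p => p.coeff 0))
    (z2 : k ≠ 0 → l ≠ 0 → ∀ (c : ℂ) (y : Fin s → ℂ), (fun j => (h j).coeff 0) ≠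
      c • (fun j => (g j).coeff 0) + y ᵥ* (T.map fun p => p.coeff 0))
    (i0 : k ≠ m + e → ∀ y : Fin s → ℂ, (fun j => (g j).coeff m) ≠
      y ᵥ* (Matrix.of fun i j => (T i j).coeff (τ i)))
    (i1 : l ≠ n + e → ∀ y : Fin s → ℂ, (fun j => (h j).coeff n) ≠
      y ᵥ* (Matrix.of fun i j => (T i j).coeff (τ i)))
    (i2 : k ≠ m + e → l ≠ n + e → ∀ (c : ℂ) (y : Fin s → ℂ), (fun j => (h j).coeff n) ≠
      c • (fun j => (g j).coeff m) + y ᵥ* (Matrix.of fun i j => (T i j).coeff (τ i)))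
    (hlt : e + r < m + n + ∑ i, τ i) : dd (fs u) (fs v) (fs w) = 0 := by
  have dfu : ∀ i, (fs u i).natDegree ≤ e := fun i => du _
  have dfv : ∀ i, (fs v i).natDegree ≤ e := fun i => dv _
  have dfw : ∀ i, (fs w i).natDegree ≤ e + r := fun i => dw _
  set F := dd (fs u) (fs v) (fs w) with hF
  have hd : F.natDegree ≤ (e + e) + (e + r) := deg_dp (deg_cp dfu dfv) dfw
  have hDne : (sq T).det ≠ 0 := fun h0 => D0 (by rw [h0, coeff_zero])
  have hz : X ^ (k + l) ∣ F := by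
    refine loc0 Tu Tv Tw ?_ ?_ ?_ ?_ ?_ ?_ D0 z0 z1 z2
    · rw [gu]; exact dvd_mul_left _ _
    · rw [gv]; exact dvd_mul_left _ _
    · rw [gw]; exact dvd_mul_left _ _
    · rw [hu]; exact dvd_mul_left _ _
    · rw [hv]; exact dvd_mul_left _ _
    · rw [hw]; exact dvd_mul_left _ _
  have hdv : (sq T).det ∣ F := det_dvd Tu Tv Tw hDne full
  have hrd : reflect ((e + e) + (e + r)) F = dd (fs fun i => reflect e (u i))
      (fs fun i => reflect e (v i)) (fs fun i => reflect (e + r) (w i)) := by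
    show reflect _ (dp (cp (fs u) (fs v)) (fs w)) = _
    rw [ref_dp (deg_cp dfu dfv) dfw]
    show _ = dp (cp _ _) _
    congr 1
    funext i
    exact ref_cp dfu dfv i
  have rc : ∀ (c : ℂ) (N j : ℕ), j ≤ N → X ^ (N - j) ∣ reflect N (C c * X ^ j) := by
    intro c N j hj
    rw [reflect_C_mul_X_pow, revAt_le hj]
    exact dvd_mul_left _ _
  have rp : ∀ (p : ℂ[X]) (N j : ℕ), p.natDegree ≤ r → j ≤ N →
      X ^ (N - j) ∣ reflect (N + r) (p * X ^ j) := by
    intro p N j hp hj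
    have e1 : N + r = r + N := add_comm _ _
    rw [e1, reflect_mul _ _ hp (natDegree_X_pow_le j |>.trans hj)]
    have e2 : reflect N (X ^ j : ℂ[X]) = X ^ (N - j) := by
      have := reflect_C_mul_X_pow N j (c := (1 : ℂ))
      rw [C_1, one_mul, one_mul, revAt_le hj] at this
      exact this
    rw [e2]
    exact dvd_mul_left _ _
  have c0 : ∀ (m : ℕ) (p : ℂ[X]), (reflect m p).coeff 0 = p.coeff m := by
    intro m p
    rw [coeff_reflect, revAt_le (Nat.zero_le _), Nat.sub_zero]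
  set T' : Matrix (Fin s) (Fin 3 ⊕ Fin s) ℂ[X] := Matrix.of fun i j => reflect (τ i) (T i j) with hT'
  have hT'0 : (T'.map fun p => p.coeff 0) = Matrix.of fun i j => (T i j).coeff (τ i) := by
    ext i j
    exact c0 _ _
  have hT'w : ∀ (w : Fin 3 ⊕ Fin s → ℂ[X]) (f : ℕ), (∀ i, (w i).natDegree ≤ f) → T *ᵥ w = 0 →
      T' *ᵥ (fun i => reflect f (w i)) = 0 := by
    intro w f hwf hTw
    funext i
    show (fun j => reflect (τ i) (T i j)) ⬝ᵥ (fun i => reflect f (w i)) = 0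
    rw [ref_dot (dT i) hwf]
    have h1 : T i ⬝ᵥ w = 0 := congrFun hTw i
    rw [h1, ref_zero]
  have hz' : X ^ ((m + e - k) + (n + e - l)) ∣ reflect ((e + e) + (e + r)) F := by
    rw [hrd]
    refine loc0 (T := T') (g := fun i => reflect m (g i)) (h := fun i => reflect n (h i))
      (hT'w u e du Tu) (hT'w v e dv Tv) (hT'w w (e + r) dw Tw) ?_ ?_ ?_ ?_ ?_ ?_ ?_ ?_ ?_ ?_
    · rw [ref_dot dg du, gu]; exact rc _ _ _ hk
    · rw [ref_dot dg dv, gv]; exact rc _ _ _ hk
    · rw [ref_dot dg dw, gw, ← add_assoc]; exact rp _ _ _ dp' hk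
    · rw [ref_dot dh du, hu]; exact rc _ _ _ hl
    · rw [ref_dot dh dv, hv]; exact rc _ _ _ hl
    · rw [ref_dot dh dw, hw, ← add_assoc]; exact rp _ _ _ dq hl
    · have h1 := RingHom.map_det (constantCoeff (R := ℂ)) (sq T')
      rw [constantCoeff_apply] at h1
      rw [h1]
      have h2 : (constantCoeff (R := ℂ)).mapMatrix (sq T') =
          Matrix.of fun i j => (T i (Sum.inr j)).coeff (τ i) := by
        ext i j
        exact c0 _ _
      rw [h2]
      exact D1
    · intro hne y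
      rw [hT'0]
      have := i0 (by omega) y
      simp only [c0]
      exact this
    · intro hne y
      rw [hT'0]
      have := i1 (by omega) y
      simp only [c0]
      exact this
    · intro hne hne' c y
      rw [hT'0]
      have := i2 (by omega) (by omega) c y
      simp only [c0]
      exact this
  by_contra hF0
  -- lower bound for the degree
  have hcop : IsCoprime (X ^ (k + l) : ℂ[X]) (sq T).det := by
    refine IsCoprime.pow_left ?_
    refine (prime_X.irreducible.coprime_iff_not_dvd).2 fun h1 => D0 (X_dvd_iff.1 h1)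
  have h1 := natDegree_le_of_dvd (hcop.mul_dvd hz hdv) hF0
  rw [natDegree_mul (pow_ne_zero _ X_ne_zero) hDne, natDegree_X_pow] at h1
  have h2 : ∑ i, τ i ≤ (sq T).det.natDegree := by
    refine le_natDegree_of_ne_zero ?_
    have h3 := (det_top (A := sq T) (τ := τ) fun i j => dT i _).2
    rw [h3]
    exact D1
  -- upper bound
  have h3 : F.coeff F.natDegree ≠ 0 := by
    rw [coeff_natDegree]
    exact leadingCoeff_ne_zero.2 hF0
  have h4 : F.natDegree + ((m + e - k) + (n + e - l)) ≤ (e + e) + (e + r) := by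
    by_contra hcon
    push Not at hcon
    have h5 := X_pow_dvd_iff.1 hz' ((e + e) + (e + r) - F.natDegree) (by omega)
    rw [coeff_reflect, revAt_le (by omega)] at h5
    have e1 : (e + e) + (e + r) - ((e + e) + (e + r) - F.natDegree) = F.natDegree := by omega
    rw [e1] at h5
    exact h3 h5
  omega

end Pool.Agent.K9h3.CV
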