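import Pool.Agent.K9h3.CV.B

/-!
# Forms along a vector of polynomials
-/

set_option autoImplicit false

open Polynomial Matrix

namespace Pool.Agent.K9h3.CV

variable {n : ℕ}

/-- the value of a form on a vector of polynomials -/
noncomputable def vl (φ : Fin n → ℂ[X]) (F : MvPolynomial (Fin n) ℂ) : ℂ[X] :=
  MvPolynomial.aeval φ F

/-- the gradient at a point -/
noncomputable def gd (F : MvPolynomial (Fin n) ℂ) (x : Fin n → ℂ) : Fin n → ℂ :=
  fun i => MvPolynomial.eval x (MvPolynomial.pderiv i F)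

/-- the gradient along a vector of polynomials -/
noncomputable def gp (F : MvPolynomial (Fin n) ℂ) (φ : Fin n → ℂ[X]) : Fin n → ℂ[X] :=
  fun i => vl φ (MvPolynomial.pderiv i F)

variable (φ : Fin n → ℂ[X])

theorem vl_add (F G : MvPolynomial (Fin n) ℂ) : vl φ (F + G) = vl φ F + vl φ G := map_add _ _ _

theorem vl_sub (F G : MvPolynomial (Fin n) ℂ) : vl φ (F - G) = vl φ F - vl φ G := map_sub _ _ _

theorem vl_mul (F G : MvPolynomial (Fin n) ℂ) : vl φ (F * G) = vl φ F * vl φ G := map_mul _ _ _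

theorem vl_z : vl φ 0 = 0 := map_zero _

theorem vl_X (i : Fin n) : vl φ (MvPolynomial.X i) = φ i := MvPolynomial.aeval_X _ _

theorem vl_C (c : ℂ) : vl φ (MvPolynomial.C c) = C c := MvPolynomial.aeval_C _ _

theorem vl_mono (m : Fin n →₀ ℕ) (c : ℂ) :
    vl φ (MvPolynomial.monomial m c) = C c * ∏ i, φ i ^ m i := by
  unfold vl
  rw [MvPolynomial.aeval_monomial, Finsupp.prod_fintype _ _ (fun i => pow_zero _)]
  rfl

theorem hom_support {F : MvPolynomial (Fin n) ℂ} {d : ℕ} (hF : F.IsHomogeneous d)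
    {m : Fin n →₀ ℕ} (hm : m ∈ F.support) : m.degree = d := by
  have h1 := hF (MvPolynomial.mem_support_iff.1 hm)
  rw [← h1]
  exact congrFun (congrArg _ Finsupp.degree_eq_weight_one) m

theorem vl_sum (F : MvPolynomial (Fin n) ℂ) : vl φ F =
    ∑ m ∈ F.support, C (F.coeff m) * ∏ i, φ i ^ m i := by
  conv_lhs => rw [← F.support_sum_monomial_coeff]
  unfold vl
  rw [map_sum]
  exact Finset.sum_congr rfl fun m _ => vl_mono φ m _

variable {φ}

theorem mono_top {e : ℕ} (hφ : ∀ i, (φ i).natDegree ≤ e) (m : Fin n →₀ ℕ) :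
    (∏ i, φ i ^ m i).natDegree ≤ m.degree * e ∧
      (∏ i, φ i ^ m i).coeff (m.degree * e) = ∏ i, (φ i).coeff e ^ m i := by
  have h1 := prod_top Finset.univ (fun i => φ i ^ m i) (fun i => m i * e) fun i _ =>
    natDegree_pow_le.trans (Nat.mul_le_mul_left _ (hφ i))
  rw [← Finset.sum_mul, ← Finsupp.degree_eq_sum] at h1
  refine ⟨h1.1, h1.2.trans ?_⟩
  exact Finset.prod_congr rfl fun i _ => coeff_pow_of_natDegree_le (hφ i)

theorem vl_deg {e d : ℕ} (hφ : ∀ i, (φ i).natDegree ≤ e) {F : MvPolynomial (Fin n) ℂ}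
    (hF : F.IsHomogeneous d) : (vl φ F).natDegree ≤ d * e := by
  rw [vl_sum]
  refine natDegree_sum_le_of_forall_le _ _ fun m hm => ?_
  refine (natDegree_C_mul_le _ _).trans ?_
  rw [← hom_support hF hm]
  exact (mono_top hφ m).1

theorem eval_sum (x : Fin n → ℂ) (F : MvPolynomial (Fin n) ℂ) : MvPolynomial.eval x F =
    ∑ m ∈ F.support, F.coeff m * ∏ i, x i ^ m i := MvPolynomial.eval_eq' _ _

theorem vl_top {e d : ℕ} (hφ : ∀ i, (φ i).natDegree ≤ e) {F : MvPolynomial (Fin n) ℂ}
    (hF : F.IsHomogeneous d) :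
    (vl φ F).coeff (d * e) = MvPolynomial.eval (fun i => (φ i).coeff e) F := by
  rw [vl_sum, finsetSum_coeff, eval_sum]
  refine Finset.sum_congr rfl fun m hm => ?_
  rw [coeff_C_mul, ← hom_support hF hm, (mono_top hφ m).2]

theorem vl_eval (F : MvPolynomial (Fin n) ℂ) (t : ℂ) :
    (vl φ F).eval t = MvPolynomial.eval (fun i => (φ i).eval t) F := by
  rw [vl_sum, eval_finsetSum, eval_sum]
  refine Finset.sum_congr rfl fun m _ => ?_
  rw [eval_mul, eval_C, eval_prod]
  simp only [eval_pow]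

theorem vl_zero (F : MvPolynomial (Fin n) ℂ) :
    (vl φ F).coeff 0 = MvPolynomial.eval (fun i => (φ i).coeff 0) F := by
  rw [coeff_zero_eq_eval_zero, vl_eval]
  simp only [coeff_zero_eq_eval_zero]

theorem gp_euler {F : MvPolynomial (Fin n) ℂ} {d : ℕ} (hF : F.IsHomogeneous d)
    (φ : Fin n → ℂ[X]) : gp F φ ⬝ᵥ φ = d * vl φ F := by
  have h := congrArg (MvPolynomial.aeval φ) hF.sum_X_mul_pderiv
  simp only [map_sum, map_mul, MvPolynomial.aeval_X, nsmul_eq_mul, map_natCast] at h
  refine Eq.trans ?_ h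
  show ∑ i, vl φ _ * φ i = ∑ i, φ i * vl φ _
  exact Finset.sum_congr rfl fun i _ => mul_comm _ _

/-- the chain rule for a derivation which acts on the coefficients by `δ` -/
theorem chain (D : Derivation ℤ ℂ[X] ℂ[X]) (δ : ℂ → ℂ) (hδ0 : δ 0 = 0)
    (hδa : ∀ x y, δ (x + y) = δ x + δ y)
    (hD : ∀ c, D (C c) = C (δ c)) (φ : Fin n → ℂ[X]) (F G : MvPolynomial (Fin n) ℂ)
    (hG : ∀ m, G.coeff m = δ (F.coeff m)) :
    D (vl φ F) = vl φ G + gp F φ ⬝ᵥ (fun i => D (φ i)) := by
  have hex : ∀ F1 : MvPolynomial (Fin n) ℂ, ∃ G1 : MvPolynomial (Fin n) ℂ,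
      ∀ m, G1.coeff m = δ (F1.coeff m) := by
    intro F1
    refine ⟨∑ m ∈ F1.support, MvPolynomial.monomial m (δ (F1.coeff m)), fun m => ?_⟩
    rw [MvPolynomial.coeff_sum]
    simp only [MvPolynomial.coeff_monomial]
    rw [Finset.sum_ite_eq']
    split_ifs with h
    · rfl
    · rw [MvPolynomial.notMem_support_iff.1 h, hδ0]
  induction F using MvPolynomial.induction_on generalizing G with
  | C c =>
    have h1 : G = MvPolynomial.C (δ c) := by
      ext m
      rw [hG, MvPolynomial.coeff_C, MvPolynomial.coeff_C]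
      split_ifs with h
      · rfl
      · exact hδ0
    rw [h1]
    have h2 : gp (MvPolynomial.C c) φ = 0 := by
      funext i
      show vl φ (MvPolynomial.pderiv i (MvPolynomial.C c)) = 0
      rw [MvPolynomial.pderiv_C, vl_z]
    rw [vl_C, vl_C, hD, h2, zero_dotProduct, add_zero]
  | add F1 F2 ih1 ih2 =>
    obtain ⟨G1, hG1⟩ := hex F1
    have h1 := ih1 G1 hG1
    have h2 := ih2 (G - G1) (fun m => by
      rw [MvPolynomial.coeff_sub, hG, hG1, MvPolynomial.coeff_add, hδa, add_sub_cancel_left])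
    rw [vl_add, map_add, h1, h2, vl_sub]
    have h3 : gp (F1 + F2) φ = gp F1 φ + gp F2 φ := by
      funext i
      show vl φ (MvPolynomial.pderiv i (F1 + F2)) = _
      rw [map_add, vl_add]; rfl
    rw [h3, add_dotProduct]
    ring
  | mul_X F i ih =>
    obtain ⟨G1, hG1⟩ := hex F
    have h1 := ih G1 hG1
    have h2 : G = G1 * MvPolynomial.X i := by
      ext m
      rw [hG, MvPolynomial.coeff_mul_X', MvPolynomial.coeff_mul_X']
      split_ifs with h
      · rw [hG1]
      · exact hδ0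
    rw [h2, vl_mul, vl_mul, D.leibniz, h1, vl_X]
    have h3 : gp (F * MvPolynomial.X i) φ = φ i • gp F φ + Pi.single i (vl φ F) := by
      funext j
      show vl φ (MvPolynomial.pderiv j (F * MvPolynomial.X i)) = φ i * vl φ _ +
        (Pi.single i (vl φ F) : Fin n → ℂ[X]) j
      rw [(MvPolynomial.pderiv j).leibniz, MvPolynomial.pderiv_X]
      simp only [smul_eq_mul, vl_add, vl_mul, vl_X]
      rw [Pi.single_apply, Pi.single_apply]
      by_cases h : i = j
      · rw [if_pos h, if_pos h.symm]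
        have h4 : vl φ 1 = 1 := map_one _
        rw [h4, mul_one, add_comm]
      · rw [if_neg h, if_neg (fun h' => h h'.symm), vl_z, mul_zero, zero_add, add_zero]
    rw [h3, add_dotProduct, smul_dotProduct, single_dotProduct, smul_eq_mul, smul_eq_mul,
      smul_eq_mul]
    ring

/-- the tangent vector field along the curve -/
noncomputable def tg (φ : Fin n → ℂ[X]) : Fin n → ℂ[X] := fun i => X * derivative (φ i)

theorem chain_deriv (φ : Fin n → ℂ[X]) (F : MvPolynomial (Fin n) ℂ) :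
    gp F φ ⬝ᵥ tg φ = X * derivative (vl φ F) := by
  have h1 := chain (Polynomial.derivative' (R := ℂ) |>.restrictScalars ℤ) (fun _ => 0) rfl
    (fun _ _ => (add_zero _).symm) (fun c => by
      show derivative (C c) = C 0
      rw [derivative_C, C_0]) φ F 0 (fun m => by rw [MvPolynomial.coeff_zero])
  have h2 : derivative (vl φ F) = gp F φ ⬝ᵥ (fun i => derivative (φ i)) := by
    rw [vl_z, zero_add] at h1
    exact h1
  rw [h2]
  show ∑ i, gp F φ i * (X * derivative (φ i)) = X * ∑ i, gp F φ i * derivative (φ i)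
  rw [Finset.mul_sum]
  exact Finset.sum_congr rfl fun i _ => by ring

theorem gp_deg {F : MvPolynomial (Fin n) ℂ} {d e : ℕ} (hF : F.IsHomogeneous d)
    (hφ : ∀ i, (φ i).natDegree ≤ e) (i : Fin n) : (gp F φ i).natDegree ≤ (d - 1) * e :=
  vl_deg hφ hF.pderiv

theorem gp_zero {F : MvPolynomial (Fin n) ℂ} (i : Fin n) :
    (gp F φ i).coeff 0 = gd F (fun i => (φ i).coeff 0) i := vl_zero _

theorem gp_eval {F : MvPolynomial (Fin n) ℂ} (i : Fin n) (t : ℂ) :
    (gp F φ i).eval t = gd F (fun i => (φ i).eval t) i := vl_eval _ _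

theorem gp_top {F : MvPolynomial (Fin n) ℂ} {d e : ℕ} (hF : F.IsHomogeneous d)
    (hφ : ∀ i, (φ i).natDegree ≤ e) (i : Fin n) :
    (gp F φ i).coeff ((d - 1) * e) = gd F (fun i => (φ i).coeff e) i :=
  vl_top hφ hF.pderiv

theorem tg_deg {e : ℕ} (hφ : ∀ i, (φ i).natDegree ≤ e) (i : Fin n) : (tg φ i).natDegree ≤ e := by
  rcases Nat.eq_zero_or_pos (φ i).natDegree with h0 | h0
  · have h1 : derivative (φ i) = 0 := by
      rw [eq_C_of_natDegree_eq_zero h0, derivative_C]
    show (X * derivative (φ i)).natDegree ≤ e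
    rw [h1, mul_zero]
    simp
  · have h1 := natDegree_derivative_lt h0.ne'
    have h2 : (X * derivative (φ i)).natDegree ≤ 1 + (derivative (φ i)).natDegree := by
      refine natDegree_mul_le.trans ?_
      rw [natDegree_X]
    have h3 := hφ i
    show (X * derivative (φ i)).natDegree ≤ e
    omega

theorem coeff_CX {c : ℂ} {k m : ℕ} : (C c * X ^ k : ℂ[X]).coeff m = if m = k then c else 0 := by
  rw [coeff_C_mul, coeff_X_pow]
  split_ifs <;> simp

theorem X_der (c : ℂ) (k : ℕ) : (X * derivative (C c * X ^ k) : ℂ[X]) = C (k * c) * X ^ k := by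
  ext m
  rw [derivative_C_mul_X_pow, coeff_CX]
  cases m with
  | zero =>
    rw [mul_coeff_zero, coeff_X_zero, zero_mul]
    split_ifs with h
    · rw [← h]; simp
    · rfl
  | succ m =>
    rw [coeff_X_mul, coeff_CX]
    rcases Nat.eq_zero_or_pos k with hk | hk
    · subst hk; simp
    · by_cases h : m + 1 = k
      · rw [if_pos (by omega), if_pos h, mul_comm]
      · rw [if_neg (by omega), if_neg h]

end Pool.Agent.K9h3.CV
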