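import Pool.Agent.K9h3.CV.C

/-!
# Choice of coordinates
-/

set_option autoImplicit false

open Polynomial Matrix

namespace Pool.Agent.K9h3.CV

theorem right_inv {m n : ℕ} {G : Matrix (Fin m) (Fin n) ℂ} (h : LinearIndependent ℂ G.row) :
    ∃ Z : Matrix (Fin n) (Fin m) ℂ, G * Z = 1 := by
  rw [← mulVec_surjective_iff_exists_right_inverse]
  have h1 : G.rank = m := by rw [h.rank_matrix, Fintype.card_fin]
  have h2 : LinearMap.range G.mulVecLin = ⊤ := by
    refine Submodule.eq_top_of_finrank_eq ?_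
    rw [Module.finrank_fin_fun]
    exact h1
  exact LinearMap.range_eq_top.1 h2

theorem finite_bad {s : ℕ} (M : Matrix (Fin s) (Fin s) ℂ) :
    {x : ℂ | (1 + x • M).det = 0}.Finite := by
  classical
  set p : ℂ[X] := (1 + (X : ℂ[X]) • M.map C).det with hp
  have hev : ∀ x : ℂ, p.eval x = (1 + x • M).det := by
    intro x
    have h := RingHom.map_det (evalRingHom x) (1 + (X : ℂ[X]) • M.map C)
    rw [coe_evalRingHom] at h
    rw [hp, h]
    congr 1
    ext i j
    show eval x ((1 : Matrix (Fin s) (Fin s) ℂ[X]) i j + X * C (M i j)) =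
      (1 : Matrix (Fin s) (Fin s) ℂ) i j + x * M i j
    rw [eval_add, eval_mul, eval_X, eval_C, one_apply, one_apply]
    split_ifs
    · rw [eval_one]
    · rw [eval_zero]
  have hp0 : p ≠ 0 := by
    intro h0
    have h1 := hev 0
    rw [h0, eval_zero, zero_smul, add_zero, det_one] at h1
    exact zero_ne_one h1
  refine (p.roots.toFinset.finite_toSet).subset fun x hx => ?_
  rw [Finset.mem_coe, Multiset.mem_toFinset, mem_roots hp0, IsRoot.def, hev]
  exact hx

/-- a common complement of the kernels of two matrices of full rank -/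
theorem exists_Z {s n : ℕ} {G0 G1 : Matrix (Fin s) (Fin n) ℂ} (h0 : LinearIndependent ℂ G0.row)
    (h1 : LinearIndependent ℂ G1.row) :
    ∃ Z : Matrix (Fin n) (Fin s) ℂ, (G0 * Z).det ≠ 0 ∧ (G1 * Z).det ≠ 0 := by
  obtain ⟨Z0, hZ0⟩ := right_inv h0
  obtain ⟨Z1, hZ1⟩ := right_inv h1
  have hfin : ({0} ∪ {x : ℂ | (1 + x • (G0 * Z1)).det = 0} ∪
      (fun x : ℂ => x⁻¹) ⁻¹' {x : ℂ | (1 + x • (G1 * Z0)).det = 0}).Finite := by
    refine ((Set.finite_singleton _).union (finite_bad _)).union ?_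
    exact (finite_bad _).preimage inv_injective.injOn
  obtain ⟨x, hx⟩ := hfin.infinite_compl.nonempty
  simp only [Set.mem_compl_iff, Set.mem_union, Set.mem_singleton_iff, Set.mem_ofPred_eq,
    Set.mem_preimage, not_or] at hx
  obtain ⟨⟨hx0, hx1⟩, hx2⟩ := hx
  refine ⟨Z0 + x • Z1, ?_, ?_⟩
  · rw [Matrix.mul_add, hZ0, Matrix.mul_smul]
    exact hx1
  · rw [Matrix.mul_add, Matrix.mul_smul, hZ1]
    have h2 : G1 * Z0 + x • (1 : Matrix (Fin s) (Fin s) ℂ) = x • (1 + x⁻¹ • (G1 * Z0)) := by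
      rw [smul_add, smul_smul, mul_inv_cancel₀ hx0, one_smul, add_comm]
    rw [h2, det_smul]
    exact mul_ne_zero (pow_ne_zero _ hx0) hx2

/-- coordinates adapted to two matrices of full rank -/
theorem exists_B {s : ℕ} {G0 G1 : Matrix (Fin s) (Fin (s + 3)) ℂ}
    (h0 : LinearIndependent ℂ G0.row) (h1 : LinearIndependent ℂ G1.row) :
    ∃ (B : Matrix (Fin (s + 3)) (Fin 3 ⊕ Fin s) ℂ) (Bi : Matrix (Fin 3 ⊕ Fin s) (Fin (s + 3)) ℂ),
      B * Bi = 1 ∧ Bi * B = 1 ∧ (sq (G0 * B)).det ≠ 0 ∧ (sq (G1 * B)).det ≠ 0 := by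
  classical
  obtain ⟨Z, hZ0, hZ1⟩ := exists_Z h0 h1
  -- the kernel of the first matrix
  have hker : Module.finrank ℂ (LinearMap.ker G0.mulVecLin) = 3 := by
    have e1 := LinearMap.finrank_range_add_finrank_ker G0.mulVecLin
    have e2 : Module.finrank ℂ (LinearMap.range G0.mulVecLin) = s := by
      have : G0.rank = s := by rw [h0.rank_matrix, Fintype.card_fin]
      exact this
    rw [e2, Module.finrank_fin_fun] at e1
    omega
  let bk := Module.finBasisOfFinrankEq ℂ (LinearMap.ker G0.mulVecLin) hker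
  let v : Fin 3 ⊕ Fin s → (Fin (s + 3) → ℂ) :=
    Sum.elim (fun i => (bk i : Fin (s + 3) → ℂ)) (fun j i => Z i j)
  have hv : LinearIndependent ℂ v := by
    rw [Fintype.linearIndependent_iff]
    intro c hc
    rw [Fintype.sum_sum_type] at hc
    have hk : ∀ i, G0 *ᵥ (bk i : Fin (s + 3) → ℂ) = 0 := fun i => (bk i).2
    have h2 : G0 *ᵥ (∑ i, c (Sum.inr i) • v (Sum.inr i)) = 0 := by
      have h3 := congrArg (fun w => G0 *ᵥ w) hc
      simp only [mulVec_add, mulVec_zero] at h3
      have h4 : G0 *ᵥ (∑ i, c (Sum.inl i) • v (Sum.inl i)) = 0 := by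
        rw [mulVec_sum]
        refine Finset.sum_eq_zero fun i _ => ?_
        rw [mulVec_smul]
        show c (Sum.inl i) • (G0 *ᵥ (bk i : Fin (s + 3) → ℂ)) = 0
        rw [hk, smul_zero]
      rw [h4, zero_add] at h3
      exact h3
    have h5 : (G0 * Z) *ᵥ (fun i => c (Sum.inr i)) = 0 := by
      rw [← mulVec_mulVec]
      have h6 : Z *ᵥ (fun i => c (Sum.inr i)) = ∑ i, c (Sum.inr i) • v (Sum.inr i) := by
        funext j
        rw [Finset.sum_apply]
        show ∑ i, Z j i * c (Sum.inr i) = ∑ i, c (Sum.inr i) * Z j i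
        exact Finset.sum_congr rfl fun i _ => mul_comm _ _
      rw [h6, h2]
    have h7 : (fun i => c (Sum.inr i)) = 0 := eq_zero_of_mulVec_eq_zero hZ0 h5
    have h8 : ∑ i, c (Sum.inl i) • (bk i : Fin (s + 3) → ℂ) = 0 := by
      have h9 : ∑ i, c (Sum.inr i) • v (Sum.inr i) = 0 :=
        Finset.sum_eq_zero fun i _ => by rw [congrFun h7 i]; exact zero_smul _ _
      rw [h9, add_zero] at hc
      exact hc
    have h10 : ∑ i, c (Sum.inl i) • bk i = 0 := by
      apply Subtype.ext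
      rw [Submodule.coe_sum]
      exact h8
    have h11 := Fintype.linearIndependent_iff.1 bk.linearIndependent _ h10
    intro i
    rcases i with i | i
    · exact h11 i
    · exact congrFun h7 i
  have hcard : Fintype.card (Fin 3 ⊕ Fin s) = Module.finrank ℂ (Fin (s + 3) → ℂ) := by
    rw [Module.finrank_fin_fun, Fintype.card_sum, Fintype.card_fin, Fintype.card_fin]
    omega
  let b := basisOfLinearIndependentOfCardEqFinrank hv hcard
  have hb : ∀ j, b j = v j := fun j => congrFun (coe_basisOfLinearIndependentOfCardEqFinrank hv hcard) j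
  refine ⟨(Pi.basisFun ℂ (Fin (s + 3))).toMatrix b, b.toMatrix (Pi.basisFun ℂ (Fin (s + 3))),
    Module.Basis.toMatrix_mul_toMatrix_flip _ _, Module.Basis.toMatrix_mul_toMatrix_flip _ _, ?_, ?_⟩
  · have h2 : sq (G0 * (Pi.basisFun ℂ (Fin (s + 3))).toMatrix b) = G0 * Z := by
      ext i j
      show ∑ k, G0 i k * (Pi.basisFun ℂ (Fin (s + 3))).toMatrix b k (Sum.inr j) = ∑ k, G0 i k * Z k j
      refine Finset.sum_congr rfl fun k _ => ?_
      rw [Module.Basis.toMatrix_apply, Pi.basisFun_repr, hb]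
      rfl
    rw [h2]
    exact hZ0
  · have h2 : sq (G1 * (Pi.basisFun ℂ (Fin (s + 3))).toMatrix b) = G1 * Z := by
      ext i j
      show ∑ k, G1 i k * (Pi.basisFun ℂ (Fin (s + 3))).toMatrix b k (Sum.inr j) = ∑ k, G1 i k * Z k j
      refine Finset.sum_congr rfl fun k _ => ?_
      rw [Module.Basis.toMatrix_apply, Pi.basisFun_repr, hb]
      rfl
    rw [h2]
    exact hZ1

end Pool.Agent.K9h3.CV
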