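import Pool.Agent.K9h3.CV.D

/-!
# The rigidity theorem for complete intersection surfaces
-/

set_option autoImplicit false

open Polynomial Matrix

namespace Pool.Agent.K9h3.CV

open Pool.Agent.K9h3.TC.VG (dd dp cp dd_eq adj2)

variable {s : ℕ}

/-- the Jacobian matrix at a point -/
noncomputable def Gx (R : Fin s → MvPolynomial (Fin (s + 3)) ℂ) (x : Fin (s + 3) → ℂ) :
    Matrix (Fin s) (Fin (s + 3)) ℂ := Matrix.of fun i => gd (R i) x

/-- a rational curve of degree `e` in the surface `R = 0` meeting the curves `P = 0`, `Q = 0` only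
at `0` and `∞` -/
structure RC (R : Fin s → MvPolynomial (Fin (s + 3)) ℂ) (P Q : MvPolynomial (Fin (s + 3)) ℂ)
    (d : Fin s → ℕ) (a b e k l : ℕ) (c c' : ℂ) (φ : Fin (s + 3) → ℂ[X]) : Prop where
  homR : ∀ i, (R i).IsHomogeneous (d i)
  posR : ∀ i, 1 ≤ d i
  homP : P.IsHomogeneous a
  homQ : Q.IsHomogeneous b
  sR : ∀ x : Fin (s + 3) → ℂ, x ≠ 0 → (∀ i, MvPolynomial.eval x (R i) = 0) →
    LinearIndependent ℂ (Gx R x).row
  sP : ∀ x : Fin (s + 3) → ℂ, x ≠ 0 → (∀ i, MvPolynomial.eval x (R i) = 0) →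
    MvPolynomial.eval x P = 0 → ∀ y : Fin s → ℂ, gd P x ≠ y ᵥ* Gx R x
  sQ : ∀ x : Fin (s + 3) → ℂ, x ≠ 0 → (∀ i, MvPolynomial.eval x (R i) = 0) →
    MvPolynomial.eval x Q = 0 → ∀ y : Fin s → ℂ, gd Q x ≠ y ᵥ* Gx R x
  tr : ∀ x : Fin (s + 3) → ℂ, x ≠ 0 → (∀ i, MvPolynomial.eval x (R i) = 0) →
    MvPolynomial.eval x P = 0 → MvPolynomial.eval x Q = 0 →
    ∀ (c : ℂ) (y : Fin s → ℂ), gd Q x ≠ c • gd P x + y ᵥ* Gx R x
  deg : ∀ i, (φ i).natDegree ≤ e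
  hR : ∀ i, vl φ (R i) = 0
  hP : vl φ P = C c * X ^ k
  hQ : vl φ Q = C c' * X ^ l
  hc : c ≠ 0
  hc' : c' ≠ 0
  h0 : ∃ i, (φ i).coeff 0 ≠ 0
  h1 : ∃ i, (φ i).coeff e ≠ 0

/-- first order deformations of the curve in all directions of the second form -/
def Deforms (R : Fin s → MvPolynomial (Fin (s + 3)) ℂ) (P Q : MvPolynomial (Fin (s + 3)) ℂ)
    (b e k l : ℕ) (φ : Fin (s + 3) → ℂ[X]) : Prop :=
  ∀ m : Fin (s + 3) →₀ ℕ, m.degree = b → ∃ (y : Fin (s + 3) → ℂ[X]) (t t' : ℂ),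
    (∀ i, (y i).natDegree ≤ e) ∧ (∀ i, gp (R i) φ ⬝ᵥ y = 0) ∧
    gp P φ ⬝ᵥ y = C t * X ^ k ∧
    gp Q φ ⬝ᵥ y + vl φ (MvPolynomial.monomial m 1) = C t' * X ^ l

/-- a frame adapted to the two points of the curve -/
structure Fr (R : Fin s → MvPolynomial (Fin (s + 3)) ℂ) (x0 x1 : Fin (s + 3) → ℂ)
    (B : Matrix (Fin (s + 3)) (Fin 3 ⊕ Fin s) ℂ) (Bi : Matrix (Fin 3 ⊕ Fin s) (Fin (s + 3)) ℂ) :
    Prop where
  h1 : B * Bi = 1
  h2 : Bi * B = 1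
  h3 : (sq (Gx R x0 * B)).det ≠ 0
  h4 : (sq (Gx R x1 * B)).det ≠ 0

/-- coordinates of vectors -/
noncomputable def hat (Bi : Matrix (Fin 3 ⊕ Fin s) (Fin (s + 3)) ℂ) (w : Fin (s + 3) → ℂ[X]) :
    Fin 3 ⊕ Fin s → ℂ[X] := Bi.map C *ᵥ w

/-- coordinates of covectors -/
noncomputable def co (B : Matrix (Fin (s + 3)) (Fin 3 ⊕ Fin s) ℂ) (g : Fin (s + 3) → ℂ[X]) :
    Fin 3 ⊕ Fin s → ℂ[X] := g ᵥ* B.map C

/-- the Jacobian matrix along the curve in coordinates -/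
noncomputable def TT (B : Matrix (Fin (s + 3)) (Fin 3 ⊕ Fin s) ℂ)
    (R : Fin s → MvPolynomial (Fin (s + 3)) ℂ) (φ : Fin (s + 3) → ℂ[X]) :
    Matrix (Fin s) (Fin 3 ⊕ Fin s) ℂ[X] := Matrix.of fun i => co B (gp (R i) φ)

section frame

variable {B : Matrix (Fin (s + 3)) (Fin 3 ⊕ Fin s) ℂ}
  {Bi : Matrix (Fin 3 ⊕ Fin s) (Fin (s + 3)) ℂ}

theorem map_mul_one (h : B * Bi = 1) : (B.map C : Matrix _ _ ℂ[X]) * Bi.map C = 1 := by
  have h1 : (B * Bi).map (C : ℂ →+* ℂ[X]) = B.map C * Bi.map C := Matrix.map_mul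
  rw [← h1, h]
  refine Matrix.ext fun i j => ?_
  rw [Matrix.map_apply, one_apply, one_apply]
  split_ifs
  · exact (C_1 : (C 1 : ℂ[X]) = 1)
  · exact (C_0 : (C 0 : ℂ[X]) = 0)

theorem co_dot (h : B * Bi = 1) (g w : Fin (s + 3) → ℂ[X]) : co B g ⬝ᵥ hat Bi w = g ⬝ᵥ w := by
  unfold co hat
  rw [← dotProduct_mulVec, mulVec_mulVec, map_mul_one h, one_mulVec]

theorem hat_deg {f : ℕ} {w : Fin (s + 3) → ℂ[X]} (hw : ∀ i, (w i).natDegree ≤ f)
    (i : Fin 3 ⊕ Fin s) : (hat Bi w i).natDegree ≤ f := by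
  show (∑ j, C (Bi i j) * w j).natDegree ≤ f
  exact natDegree_sum_le_of_forall_le _ _ fun j _ => (natDegree_C_mul_le _ _).trans (hw j)

theorem co_deg {f : ℕ} {g : Fin (s + 3) → ℂ[X]} (hg : ∀ i, (g i).natDegree ≤ f)
    (i : Fin 3 ⊕ Fin s) : (co B g i).natDegree ≤ f := by
  show (∑ j, g j * C (B j i)).natDegree ≤ f
  exact natDegree_sum_le_of_forall_le _ _ fun j _ => (natDegree_mul_C_le _ _).trans (hg j)

theorem co_coeff (g : Fin (s + 3) → ℂ[X]) (N : ℕ) :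
    (fun i => (co B g i).coeff N) = (fun j => (g j).coeff N) ᵥ* B := by
  funext i
  show (∑ j, g j * C (B j i)).coeff N = ∑ j, (g j).coeff N * B j i
  rw [finsetSum_coeff]
  exact Finset.sum_congr rfl fun j _ => coeff_mul_C _ _ _

theorem co_eval (g : Fin (s + 3) → ℂ[X]) (t : ℂ) :
    (fun i => (co B g i).eval t) = (fun j => (g j).eval t) ᵥ* B := by
  funext i
  show (∑ j, g j * C (B j i)).eval t = ∑ j, (g j).eval t * B j i
  rw [eval_finsetSum]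
  exact Finset.sum_congr rfl fun j _ => by rw [eval_mul, eval_C]

/-- the coordinate determinant -/
noncomputable def lam (Bi : Matrix (Fin 3 ⊕ Fin s) (Fin (s + 3)) ℂ) (φ w : Fin (s + 3) → ℂ[X]) :
    ℂ[X] := dd (fs (hat Bi φ)) (fs (hat Bi (tg φ))) (fs (hat Bi w))

theorem hat_add (v w : Fin (s + 3) → ℂ[X]) : hat Bi (v + w) = hat Bi v + hat Bi w :=
  mulVec_add _ _ _

theorem hat_smul (c : ℂ[X]) (w : Fin (s + 3) → ℂ[X]) : hat Bi (c • w) = c • hat Bi w :=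
  mulVec_smul _ _ _

theorem lam_add (φ v w : Fin (s + 3) → ℂ[X]) : lam Bi φ (v + w) = lam Bi φ v + lam Bi φ w := by
  unfold lam
  rw [hat_add]
  simp only [dd_eq, fs, Pi.add_apply]
  ring

theorem lam_smul (φ w : Fin (s + 3) → ℂ[X]) (c : ℂ[X]) : lam Bi φ (c • w) = c * lam Bi φ w := by
  unfold lam
  rw [hat_smul]
  simp only [dd_eq, fs, Pi.smul_apply, smul_eq_mul]
  ring

theorem lam_zero (φ : Fin (s + 3) → ℂ[X]) : lam Bi φ 0 = 0 := by
  have h := lam_smul (Bi := Bi) φ 0 0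
  rw [smul_zero, zero_mul] at h
  exact h

theorem lam_sum {ι : Type} (S : Finset ι) (φ : Fin (s + 3) → ℂ[X]) (M : ι → ℂ[X])
    (y : ι → Fin (s + 3) → ℂ[X]) :
    lam Bi φ (∑ j ∈ S, M j • y j) = ∑ j ∈ S, M j * lam Bi φ (y j) := by
  classical
  induction S using Finset.induction_on with
  | empty => rw [Finset.sum_empty, Finset.sum_empty, lam_zero]
  | insert j S hj ih => rw [Finset.sum_insert hj, Finset.sum_insert hj, lam_add, lam_smul, ih]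

end frame

namespace RC

variable {R : Fin s → MvPolynomial (Fin (s + 3)) ℂ} {P Q : MvPolynomial (Fin (s + 3)) ℂ}
  {d : Fin s → ℕ} {a b e k l : ℕ} {c c' : ℂ} {φ : Fin (s + 3) → ℂ[X]}

theorem k_le (h : RC R P Q d a b e k l c c' φ) : k ≤ a * e := by
  by_contra hcon
  push Not at hcon
  have h1 := coeff_eq_zero_of_natDegree_lt (lt_of_le_of_lt (vl_deg h.deg h.homP) hcon)
  rw [h.hP, coeff_CX, if_pos rfl] at h1
  exact h.hc h1

theorem l_le (h : RC R P Q d a b e k l c c' φ) : l ≤ b * e := by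
  by_contra hcon
  push Not at hcon
  have h1 := coeff_eq_zero_of_natDegree_lt (lt_of_le_of_lt (vl_deg h.deg h.homQ) hcon)
  rw [h.hQ, coeff_CX, if_pos rfl] at h1
  exact h.hc' h1

/-- the initial point -/
noncomputable def x0 (φ : Fin (s + 3) → ℂ[X]) : Fin (s + 3) → ℂ := fun i => (φ i).coeff 0

/-- the end point -/
noncomputable def x1 (φ : Fin (s + 3) → ℂ[X]) (e : ℕ) : Fin (s + 3) → ℂ := fun i => (φ i).coeff e

theorem n0 (h : RC R P Q d a b e k l c c' φ) : x0 φ ≠ 0 := by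
  obtain ⟨i, hi⟩ := h.h0
  exact fun h1 => hi (congrFun h1 i)

theorem n1 (h : RC R P Q d a b e k l c c' φ) : x1 φ e ≠ 0 := by
  obtain ⟨i, hi⟩ := h.h1
  exact fun h1 => hi (congrFun h1 i)

theorem R0 (h : RC R P Q d a b e k l c c' φ) (i : Fin s) :
    MvPolynomial.eval (x0 φ) (R i) = 0 := by
  have h1 := vl_zero (φ := φ) (R i)
  rw [h.hR, coeff_zero] at h1
  exact h1.symm

theorem R1 (h : RC R P Q d a b e k l c c' φ) (i : Fin s) :
    MvPolynomial.eval (x1 φ e) (R i) = 0 := by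
  have h1 := vl_top h.deg (h.homR i)
  rw [h.hR, coeff_zero] at h1
  exact h1.symm

theorem Rt (h : RC R P Q d a b e k l c c' φ) (t : ℂ) (i : Fin s) :
    MvPolynomial.eval (fun j => (φ j).eval t) (R i) = 0 := by
  rw [← vl_eval, h.hR, eval_zero]

theorem nt (h : RC R P Q d a b e k l c c' φ) (ha : 1 ≤ a) (t : ℂ) :
    (fun j => (φ j).eval t) ≠ 0 := by
  by_cases ht : t = 0
  · subst ht
    intro h1
    apply h.n0
    funext j
    show (φ j).coeff 0 = 0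
    rw [coeff_zero_eq_eval_zero]
    exact congrFun h1 j
  · intro h1
    have h2 := vl_eval (φ := φ) P t
    rw [h1, h.hP, eval_mul, eval_C, eval_pow, eval_X, MvPolynomial.eval_zero,
      MvPolynomial.constantCoeff_eq, h.homP.coeff_eq_zero (by rw [map_zero]; omega)] at h2
    exact mul_ne_zero h.hc (pow_ne_zero _ ht) h2

theorem P0 (h : RC R P Q d a b e k l c c' φ) (hk : k ≠ 0) :
    MvPolynomial.eval (x0 φ) P = 0 := by
  have h1 := vl_zero (φ := φ) P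
  rw [h.hP, coeff_CX, if_neg (fun h => hk h.symm)] at h1
  exact h1.symm

theorem Q0 (h : RC R P Q d a b e k l c c' φ) (hl : l ≠ 0) :
    MvPolynomial.eval (x0 φ) Q = 0 := by
  have h1 := vl_zero (φ := φ) Q
  rw [h.hQ, coeff_CX, if_neg (fun h => hl h.symm)] at h1
  exact h1.symm

theorem P1 (h : RC R P Q d a b e k l c c' φ) (hk : k ≠ a * e) :
    MvPolynomial.eval (x1 φ e) P = 0 := by
  have h1 := vl_top h.deg h.homP
  rw [h.hP, coeff_CX, if_neg (fun h => hk h.symm)] at h1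
  exact h1.symm

theorem Q1 (h : RC R P Q d a b e k l c c' φ) (hl : l ≠ b * e) :
    MvPolynomial.eval (x1 φ e) Q = 0 := by
  have h1 := vl_top h.deg h.homQ
  rw [h.hQ, coeff_CX, if_neg (fun h => hl h.symm)] at h1
  exact h1.symm

theorem gPu (h : RC R P Q d a b e k l c c' φ) : gp P φ ⬝ᵥ φ = C (a * c) * X ^ k := by
  rw [gp_euler h.homP, h.hP, C_mul, ← mul_assoc]
  simp

theorem gQu (h : RC R P Q d a b e k l c c' φ) : gp Q φ ⬝ᵥ φ = C (b * c') * X ^ l := by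
  rw [gp_euler h.homQ, h.hQ, C_mul, ← mul_assoc]
  simp

theorem gRu (h : RC R P Q d a b e k l c c' φ) (i : Fin s) : gp (R i) φ ⬝ᵥ φ = 0 := by
  rw [gp_euler (h.homR i), h.hR, mul_zero]

theorem gPv (h : RC R P Q d a b e k l c c' φ) : gp P φ ⬝ᵥ tg φ = C (k * c) * X ^ k := by
  rw [chain_deriv, h.hP, X_der]

theorem gQv (h : RC R P Q d a b e k l c c' φ) : gp Q φ ⬝ᵥ tg φ = C (l * c') * X ^ l := by
  rw [chain_deriv, h.hQ, X_der]

theorem gRv (h : RC R P Q d a b e k l c c' φ) (i : Fin s) : gp (R i) φ ⬝ᵥ tg φ = 0 := by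
  rw [chain_deriv, h.hR, derivative_zero, mul_zero]

/-- the tangent vectors in coordinates -/
theorem ker {B : Matrix (Fin (s + 3)) (Fin 3 ⊕ Fin s) ℂ}
    {Bi : Matrix (Fin 3 ⊕ Fin s) (Fin (s + 3)) ℂ} (hB : B * Bi = 1) {w : Fin (s + 3) → ℂ[X]}
    (hw : ∀ i, gp (R i) φ ⬝ᵥ w = 0) : TT B R φ *ᵥ hat Bi w = 0 := by
  funext i
  show co B (gp (R i) φ) ⬝ᵥ hat Bi w = 0
  rw [co_dot hB, hw]

/-- the vanishing of the determinant of logarithmic vector fields along the curve -/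
theorem zero (h : RC R P Q d a b e k l c c' φ) (ha : 1 ≤ a) (hb : 1 ≤ b)
    {B : Matrix (Fin (s + 3)) (Fin 3 ⊕ Fin s) ℂ} {Bi : Matrix (Fin 3 ⊕ Fin s) (Fin (s + 3)) ℂ}
    (F : Fr R (x0 φ) (x1 φ e) B Bi) {r : ℕ} {w : Fin (s + 3) → ℂ[X]}
    {p q : ℂ[X]} (dw : ∀ i, (w i).natDegree ≤ e + r) (Rw : ∀ i, gp (R i) φ ⬝ᵥ w = 0)
    (gw : gp P φ ⬝ᵥ w = p * X ^ k) (hp : p.natDegree ≤ r) (hw : gp Q φ ⬝ᵥ w = q * X ^ l)
    (hq : q.natDegree ≤ r) (hlt : e + r < (a - 1) * e + (b - 1) * e + ∑ i, (d i - 1) * e) :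
    lam Bi φ w = 0 := by
  obtain ⟨a', rfl⟩ : ∃ a', a = a' + 1 := ⟨a - 1, by omega⟩
  obtain ⟨b', rfl⟩ : ∃ b', b = b' + 1 := ⟨b - 1, by omega⟩
  have ea : (a' + 1) * e = a' * e + e := by ring
  have eb : (b' + 1) * e = b' * e + e := by ring
  have hk := h.k_le
  have hl := h.l_le
  have dgP : ∀ i, (gp P φ i).natDegree ≤ a' * e := gp_deg h.homP h.deg
  have dgQ : ∀ i, (gp Q φ i).natDegree ≤ b' * e := gp_deg h.homQ h.deg
  have dgR : ∀ i j, (gp (R i) φ j).natDegree ≤ (d i - 1) * e := fun i => gp_deg (h.homR i) h.deg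
  have e0 : ∀ G, (fun i => (gp G φ i).coeff 0) = gd G (x0 φ) := fun G => funext gp_zero
  have e1P : (fun i => (gp P φ i).coeff (a' * e)) = gd P (x1 φ e) :=
    funext (gp_top h.homP h.deg)
  have e1Q : (fun i => (gp Q φ i).coeff (b' * e)) = gd Q (x1 φ e) :=
    funext (gp_top h.homQ h.deg)
  have e1R : ∀ i, (fun j => (gp (R i) φ j).coeff ((d i - 1) * e)) = gd (R i) (x1 φ e) :=
    fun i => funext (gp_top (h.homR i) h.deg)
  have T0 : ((TT B R φ).map fun p => p.coeff 0) = Gx R (x0 φ) * B := by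
    ext i j
    have h1 := congrFun (co_coeff (B := B) (gp (R i) φ) 0) j
    rw [e0] at h1
    exact h1
  have T1 : (Matrix.of fun i j => ((TT B R φ) i j).coeff ((d i - 1) * e)) =
      Gx R (x1 φ e) * B := by
    ext i j
    have h1 := congrFun (co_coeff (B := B) (gp (R i) φ) ((d i - 1) * e)) j
    rw [e1R] at h1
    exact h1
  have cancel : ∀ {g g' : Fin (s + 3) → ℂ}, g ᵥ* B = g' ᵥ* B → g = g' := by
    intro g g' hgg
    have h1 := congrArg (fun v => v ᵥ* Bi) hgg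
    simp only [vecMul_vecMul, F.h1, vecMul_one] at h1
    exact h1
  refine dd_zero' (T := TT B R φ) (g := co B (gp P φ)) (h := co B (gp Q φ)) (m := a' * e)
    (n := b' * e) (k := k) (l := l) (τ := fun i => (d i - 1) * e) (fun i j => co_deg (dgR i) j) (hat_deg h.deg)
    (hat_deg (tg_deg h.deg)) (hat_deg dw) (co_deg dgP) (co_deg dgQ) (ker F.h1 h.gRu)
    (ker F.h1 h.gRv) (ker F.h1 Rw) ((co_dot F.h1 _ _).trans h.gPu)
    ((co_dot F.h1 _ _).trans h.gPv) ((co_dot F.h1 _ _).trans gw) hp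
    ((co_dot F.h1 _ _).trans h.gQu) ((co_dot F.h1 _ _).trans h.gQv)
    ((co_dot F.h1 _ _).trans hw) hq (by omega) (by omega) ?_ ?_ ?_
    ?_ ?_ ?_ ?_ ?_ ?_ hlt
  · intro t
    obtain ⟨Z, hZ⟩ := right_inv (h.sR _ (h.nt ha t) (h.Rt t))
    refine ⟨Bi * Z, ?_⟩
    have h1 : ev t (TT B R φ) = Gx R (fun j => (φ j).eval t) * B := by
      ext i j
      have h2 := congrFun (co_eval (B := B) (gp (R i) φ) t) j
      have h3 : (fun j => (gp (R i) φ j).eval t) = gd (R i) (fun j => (φ j).eval t) :=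
        funext fun j => gp_eval j t
      rw [h3] at h2
      exact h2
    rw [h1, Matrix.mul_assoc, ← Matrix.mul_assoc B, F.h1, Matrix.one_mul, hZ, det_one]
    exact one_ne_zero
  · have h1 := RingHom.map_det (constantCoeff (R := ℂ)) (sq (TT B R φ))
    rw [constantCoeff_apply] at h1
    rw [h1]
    have h2 : (constantCoeff (R := ℂ)).mapMatrix (sq (TT B R φ)) = sq (Gx R (x0 φ) * B) := by
      rw [← T0]
      rfl
    rw [h2]
    exact F.h3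
  · have h2 : (Matrix.of fun i j => ((TT B R φ) i (Sum.inr j)).coeff ((d i - 1) * e)) =
        sq (Gx R (x1 φ e) * B) := by
      rw [← T1]
      rfl
    rw [h2]
    exact F.h4
  · intro hk0 y hy
    rw [T0, co_coeff, e0, ← vecMul_vecMul] at hy
    exact h.sP _ h.n0 h.R0 (h.P0 hk0) y (cancel hy)
  · intro hl0 y hy
    rw [T0, co_coeff, e0, ← vecMul_vecMul] at hy
    exact h.sQ _ h.n0 h.R0 (h.Q0 hl0) y (cancel hy)
  · intro hk0 hl0 c y hy
    rw [T0, co_coeff, co_coeff, e0, e0, ← vecMul_vecMul, ← smul_vecMul, ← add_vecMul] at hy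
    exact h.tr _ h.n0 h.R0 (h.P0 hk0) (h.Q0 hl0) c y (cancel hy)
  · intro hk0 y hy
    rw [T1, co_coeff, e1P, ← vecMul_vecMul] at hy
    exact h.sP _ h.n1 h.R1 (h.P1 (by omega)) y (cancel hy)
  · intro hl0 y hy
    rw [T1, co_coeff, e1Q, ← vecMul_vecMul] at hy
    exact h.sQ _ h.n1 h.R1 (h.Q1 (by omega)) y (cancel hy)
  · intro hk0 hl0 c y hy
    rw [T1, co_coeff, co_coeff, e1P, e1Q, ← vecMul_vecMul, ← smul_vecMul, ← add_vecMul] at hy
    exact h.tr _ h.n1 h.R1 (h.P1 (by omega)) (h.Q1 (by omega)) c y (cancel hy)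

/-- a logarithmic vector field with vanishing determinant is a combination of the two standard
ones -/
theorem comb (h : RC R P Q d a b e k l c c' φ)
    {B : Matrix (Fin (s + 3)) (Fin 3 ⊕ Fin s) ℂ} {Bi : Matrix (Fin 3 ⊕ Fin s) (Fin (s + 3)) ℂ}
    (F : Fr R (x0 φ) (x1 φ e) B Bi) {w : Fin (s + 3) → ℂ[X]} (Rw : ∀ i, gp (R i) φ ⬝ᵥ w = 0)
    (hw : lam Bi φ w = 0) :
    (gp P φ ⬝ᵥ φ * (gp Q φ ⬝ᵥ tg φ) - gp P φ ⬝ᵥ tg φ * (gp Q φ ⬝ᵥ φ)) • w +
    (gp P φ ⬝ᵥ tg φ * (gp Q φ ⬝ᵥ w) - gp P φ ⬝ᵥ w * (gp Q φ ⬝ᵥ tg φ)) • φ +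
    (gp P φ ⬝ᵥ w * (gp Q φ ⬝ᵥ φ) - gp P φ ⬝ᵥ φ * (gp Q φ ⬝ᵥ w)) • tg φ = 0 := by
  set Y := (gp P φ ⬝ᵥ φ * (gp Q φ ⬝ᵥ tg φ) - gp P φ ⬝ᵥ tg φ * (gp Q φ ⬝ᵥ φ)) • w +
    (gp P φ ⬝ᵥ tg φ * (gp Q φ ⬝ᵥ w) - gp P φ ⬝ᵥ w * (gp Q φ ⬝ᵥ tg φ)) • φ +
    (gp P φ ⬝ᵥ w * (gp Q φ ⬝ᵥ φ) - gp P φ ⬝ᵥ φ * (gp Q φ ⬝ᵥ w)) • tg φ with hY
  set T := TT B R φ with hT
  have T0 : (T.map fun p => p.coeff 0) = Gx R (x0 φ) * B := by
    ext i j
    have h1 := congrFun (co_coeff (B := B) (gp (R i) φ) 0) j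
    have e0 : (fun i' => (gp (R i) φ i').coeff 0) = gd (R i) (x0 φ) := funext gp_zero
    rw [e0] at h1
    exact h1
  have hD : (sq T).det ≠ 0 := by
    intro h0
    have h1 := RingHom.map_det (constantCoeff (R := ℂ)) (sq T)
    rw [h0, map_zero] at h1
    have h2 : (constantCoeff (R := ℂ)).mapMatrix (sq T) = sq (Gx R (x0 φ) * B) := by
      rw [← T0]
      rfl
    rw [h2] at h1
    exact F.h3 h1.symm
  have ku := ker F.h1 h.gRu
  have kv := ker F.h1 h.gRv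
  have kw := ker F.h1 Rw
  have hYk : T *ᵥ hat Bi Y = 0 := by
    refine ker F.h1 fun i => ?_
    rw [hY, dotProduct_add, dotProduct_add, dotProduct_smul, dotProduct_smul, dotProduct_smul, Rw,
      h.gRu, h.gRv, smul_zero, smul_zero, smul_zero, add_zero, add_zero]
  -- the first three coordinates vanish
  have hY1 : fs (hat Bi Y) = 0 := by
    funext i
    have h1 := adj2 (red T (co B (gp P φ))) (red T (co B (gp Q φ))) (fs (hat Bi φ))
      (fs (hat Bi (tg φ))) (fs (hat Bi w)) i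
    have h2 : dd (fs (hat Bi φ)) (fs (hat Bi (tg φ))) (fs (hat Bi w)) = 0 := hw
    rw [h2, mul_zero, red_dp ku, red_dp kv, red_dp kw, red_dp ku, red_dp kv, red_dp kw,
      co_dot F.h1, co_dot F.h1, co_dot F.h1, co_dot F.h1, co_dot F.h1, co_dot F.h1] at h1
    have h3 : fs (hat Bi Y) i =
        (gp P φ ⬝ᵥ φ * (gp Q φ ⬝ᵥ tg φ) - gp P φ ⬝ᵥ tg φ * (gp Q φ ⬝ᵥ φ)) * fs (hat Bi w) i +
        (gp P φ ⬝ᵥ tg φ * (gp Q φ ⬝ᵥ w) - gp P φ ⬝ᵥ w * (gp Q φ ⬝ᵥ tg φ)) * fs (hat Bi φ) i +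
        (gp P φ ⬝ᵥ w * (gp Q φ ⬝ᵥ φ) - gp P φ ⬝ᵥ φ * (gp Q φ ⬝ᵥ w)) * fs (hat Bi (tg φ)) i := by
      rw [hY, hat_add, hat_add, hat_smul, hat_smul, hat_smul]
      rfl
    have h4 : (sq T).det ^ 2 * fs (hat Bi Y) i = 0 := by
      rw [h3]
      linear_combination -h1
    exact (mul_eq_zero.1 h4).resolve_left (pow_ne_zero _ hD)
  have hY2 : ls (hat Bi Y) = 0 := by
    rw [mulVec_eq, hY1, mulVec_zero, zero_add] at hYk
    exact eq_zero_of_mulVec_eq_zero hD hYk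
  have hY3 : hat Bi Y = 0 := by
    funext i
    rcases i with i | i
    · exact congrFun hY1 i
    · exact congrFun hY2 i
  have h5 : B.map C *ᵥ hat Bi Y = Y := by
    unfold hat
    rw [mulVec_mulVec, map_mul_one F.h1, one_mulVec]
  rw [← h5, hY3, mulVec_zero]

end RC

end Pool.Agent.K9h3.CV
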