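import Pool.Agent.K9h3.CV.E

/-!
# Rational curves which deform with the second divisor do not exist
-/

set_option autoImplicit false

open Polynomial Matrix

namespace Pool.Agent.K9h3.CV

variable {s : ℕ}

theorem pow_dvd_right' {p q : ℂ[X]} {n : ℕ} (hp : p.coeff 0 ≠ 0) (h : X ^ n ∣ p * q) :
    X ^ n ∣ q :=
  Polynomial.prime_X.pow_dvd_of_dvd_mul_left n (fun h1 => hp (X_dvd_iff.1 h1)) h

namespace RC

variable {R : Fin s → MvPolynomial (Fin (s + 3)) ℂ} {P Q : MvPolynomial (Fin (s + 3)) ℂ}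
  {d : Fin s → ℕ} {a b e k l : ℕ} {c c' : ℂ} {φ : Fin (s + 3) → ℂ[X]}

/-- **rigidity**: a rational curve which deforms with the second form does not exist -/
theorem rigid (h : RC R P Q d a b e k l c c' φ) (ha : 1 ≤ a) (hb : 2 ≤ b)
    (hab : s + 5 ≤ a + b + ∑ i, d i) (he : 1 ≤ e) (hdef : Deforms R P Q b e k l φ) : False := by
  classical
  obtain ⟨B, Bi, B1, B2, B3, B4⟩ := exists_B (h.sR _ h.n0 h.R0) (h.sR _ h.n1 h.R1)
  have F : Fr R (x0 φ) (x1 φ e) B Bi := ⟨B1, B2, B3, B4⟩
  obtain ⟨a', rfl⟩ : ∃ a', a = a' + 1 := ⟨a - 1, by omega⟩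
  obtain ⟨b', rfl⟩ : ∃ b', b = b' + 2 := ⟨b - 2, by omega⟩
  have hsum1 : ∑ i, (d i - 1) + s = ∑ i, d i := by
    have h1 : ∑ i, (d i - 1) + ∑ _i : Fin s, 1 = ∑ i, d i := by
      rw [← Finset.sum_add_distrib]
      exact Finset.sum_congr rfl fun i _ => Nat.sub_add_cancel (h.posR i)
    simpa using h1
  have hlt2 : e + e < (a' + 1 - 1) * e + (b' + 2 - 1) * e + ∑ i, (d i - 1) * e := by
    rw [← Finset.sum_mul, ← add_mul, ← add_mul]
    have h2 : 3 ≤ a' + 1 - 1 + (b' + 2 - 1) + ∑ i, (d i - 1) := by omega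
    have h3 := Nat.mul_le_mul_right e h2
    omega
  have hlt1 : e + 0 < (a' + 1 - 1) * e + (b' + 2 - 1) * e + ∑ i, (d i - 1) * e := by omega
  -- a choice of deformations
  have hdef' : ∀ m : Fin (s + 3) →₀ ℕ, ∃ (y : Fin (s + 3) → ℂ[X]) (t t' : ℂ), m.degree = b' + 2 →
      (∀ i, (y i).natDegree ≤ e) ∧ (∀ i, gp (R i) φ ⬝ᵥ y = 0) ∧ gp P φ ⬝ᵥ y = C t * X ^ k ∧
      gp Q φ ⬝ᵥ y + vl φ (MvPolynomial.monomial m 1) = C t' * X ^ l := by
    intro m
    by_cases hm : m.degree = b' + 2
    · obtain ⟨y, t, t', hy⟩ := hdef m hm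
      exact ⟨y, t, t', fun _ => hy⟩
    · exact ⟨0, 0, 0, fun h => absurd h hm⟩
  choose y t t' hy using hdef'
  set ν : (Fin (s + 3) →₀ ℕ) → ℂ[X] := fun m => lam Bi φ (y m) with hν
  set mo : (Fin (s + 3) →₀ ℕ) → ℂ[X] := fun m => vl φ (MvPolynomial.monomial m 1) with hmo
  have hmoS : ∀ (β : Fin (s + 3) →₀ ℕ) (j : Fin (s + 3)),
      mo (β + Finsupp.single j 1) = mo β * φ j := by
    intro β j
    simp only [hmo]
    rw [MvPolynomial.monomial_add_single, vl_mul, pow_one, vl_X]
  have degS : ∀ (β : Fin (s + 3) →₀ ℕ) (j : Fin (s + 3)),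
      (β + Finsupp.single j 1).degree = β.degree + 1 := by
    intro β j
    rw [map_add, Finsupp.degree_single]
  have hmop : ∀ (i : Fin (s + 3)) (N : ℕ), mo (Finsupp.single i N) = φ i ^ N := by
    intro i N
    simp only [hmo]
    rw [← MvPolynomial.X_pow_eq_monomial]
    show MvPolynomial.aeval φ _ = _
    rw [map_pow, MvPolynomial.aeval_X]
  -- neighbouring monomials
  have step : ∀ (β : Fin (s + 3) →₀ ℕ), β.degree = b' + 1 → ∀ i j : Fin (s + 3),
      φ i * ν (β + Finsupp.single j 1) = φ j * ν (β + Finsupp.single i 1) := by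
    intro β hβ i j
    obtain ⟨y1, y2, y3, y4⟩ := hy (β + Finsupp.single j 1) (by rw [degS, hβ])
    obtain ⟨x1, x2, x3, x4⟩ := hy (β + Finsupp.single i 1) (by rw [degS, hβ])
    have e1 : ∀ g : Fin (s + 3) → ℂ[X], g ⬝ᵥ (φ i • y (β + Finsupp.single j 1) +
        (-φ j) • y (β + Finsupp.single i 1)) = φ i * (g ⬝ᵥ y (β + Finsupp.single j 1)) -
        φ j * (g ⬝ᵥ y (β + Finsupp.single i 1)) := by
      intro g
      rw [dotProduct_add, dotProduct_smul, dotProduct_smul, smul_eq_mul, smul_eq_mul]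
      ring
    have h1 := h.zero (r := e) ha (by omega) F
      (w := φ i • y (β + Finsupp.single j 1) + (-φ j) • y (β + Finsupp.single i 1))
      (p := φ i * C (t (β + Finsupp.single j 1)) - φ j * C (t (β + Finsupp.single i 1)))
      (q := φ i * C (t' (β + Finsupp.single j 1)) - φ j * C (t' (β + Finsupp.single i 1)))
      (fun r => by
        show (φ i * y (β + Finsupp.single j 1) r + (-φ j) * y (β + Finsupp.single i 1) r).natDegree
          ≤ e + e
        refine (natDegree_add_le _ _).trans (max_le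
          (natDegree_mul_le.trans (add_le_add (h.deg _) (y1 _))) ?_)
        rw [neg_mul, natDegree_neg]
        exact natDegree_mul_le.trans (add_le_add (h.deg _) (x1 _)))
      (fun r => by rw [e1, y2, x2]; ring)
      (by
        rw [e1, y3, x3]
        ring)
      ((natDegree_sub_le _ _).trans (max_le
        ((natDegree_mul_C_le _ _).trans (h.deg _)) ((natDegree_mul_C_le _ _).trans (h.deg _))))
      (by
        have e2 : gp Q φ ⬝ᵥ (y (β + Finsupp.single j 1)) =
            C (t' (β + Finsupp.single j 1)) * X ^ l - mo β * φ j := by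
          rw [← hmoS, ← y4]
          simp only [hmo]
          ring
        have e3 : gp Q φ ⬝ᵥ (y (β + Finsupp.single i 1)) =
            C (t' (β + Finsupp.single i 1)) * X ^ l - mo β * φ i := by
          rw [← hmoS, ← x4]
          simp only [hmo]
          ring
        rw [e1, e2, e3]
        ring)
      ((natDegree_sub_le _ _).trans (max_le
        ((natDegree_mul_C_le _ _).trans (h.deg _)) ((natDegree_mul_C_le _ _).trans (h.deg _))))
      hlt2
    rw [lam_add, lam_smul, lam_smul] at h1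
    simp only [hν]
    linear_combination h1
  obtain ⟨i0, hi0⟩ := h.h0
  have hφ0 : φ i0 ≠ 0 := fun h1 => hi0 (by rw [h1, coeff_zero])
  -- comparison with a pure power
  have cmp : ∀ (N : ℕ) (m : Fin (s + 3) →₀ ℕ), m.degree = b' + 2 → m i0 + N = b' + 2 →
      φ i0 ^ (b' + 2) * ν m = ν (Finsupp.single i0 (b' + 2)) * mo m := by
    intro N
    induction N with
    | zero =>
      intro m hm hmi
      have h1 : m = Finsupp.single i0 (b' + 2) := by
        rw [Finsupp.degree_eq_sum, ← Finset.add_sum_erase _ _ (Finset.mem_univ i0)] at hm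
        have h2 : ∑ x ∈ Finset.univ.erase i0, m x = 0 := by omega
        ext r
        by_cases hr : r = i0
        · subst hr
          rw [Finsupp.single_eq_same]
          omega
        · rw [Finsupp.single_eq_of_ne hr]
          exact Finset.sum_eq_zero_iff.1 h2 r (Finset.mem_erase.2 ⟨hr, Finset.mem_univ r⟩)
      rw [h1, hmop, mul_comm]
    | succ N ih =>
      intro m hm hmi
      obtain ⟨j, hji, hj⟩ : ∃ j, j ≠ i0 ∧ m j ≠ 0 := by
        by_contra hcon
        push Not at hcon
        rw [Finsupp.degree_eq_sum, ← Finset.add_sum_erase _ _ (Finset.mem_univ i0)] at hm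
        have h2 : ∑ x ∈ Finset.univ.erase i0, m x = 0 :=
          Finset.sum_eq_zero fun x hx => hcon x (Finset.mem_erase.1 hx).1
        omega
      obtain ⟨β, hβ⟩ : ∃ β : Fin (s + 3) →₀ ℕ, m = β + Finsupp.single j 1 := by
        refine ⟨m - Finsupp.single j 1, ?_⟩
        rw [tsub_add_cancel_of_le]
        rw [Finsupp.single_le_iff]
        omega
      have hβd : β.degree = b' + 1 := by
        rw [hβ, degS] at hm
        omega
      have hβi : m i0 = β i0 := by
        rw [hβ, Finsupp.add_apply, Finsupp.single_eq_of_ne (Ne.symm hji), add_zero]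
      have h1 := ih (β + Finsupp.single i0 1) (by rw [degS, hβd]) (by
        rw [Finsupp.add_apply, Finsupp.single_eq_same]
        omega)
      have h2 := step β hβd i0 j
      rw [← hβ] at h2
      rw [hmoS] at h1
      apply mul_left_cancel₀ hφ0
      rw [hβ, hmoS, ← hβ]
      linear_combination φ i0 ^ (b' + 2) * h2 + φ j * h1
  -- the Euler direction
  have hsum : ∑ m ∈ Q.support, C (Q.coeff m) * ν m = 0 := by
    have e0 : ∀ g : Fin (s + 3) → ℂ[X], g ⬝ᵥ (∑ m ∈ Q.support, C (Q.coeff m) • y m) =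
        ∑ m ∈ Q.support, C (Q.coeff m) * (g ⬝ᵥ y m) := by
      intro g
      rw [dotProduct_sum]
      exact Finset.sum_congr rfl fun m _ => by rw [dotProduct_smul, smul_eq_mul]
    have h1 := h.zero (r := 0) ha (by omega) F
      (w := ∑ m ∈ Q.support, C (Q.coeff m) • y m)
      (p := ∑ m ∈ Q.support, C (Q.coeff m) * C (t m))
      (q := ∑ m ∈ Q.support, C (Q.coeff m) * C (t' m) - C c')
      (fun r => by
        rw [Finset.sum_apply]
        refine natDegree_sum_le_of_forall_le _ _ fun m hm => ?_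
        exact (natDegree_C_mul_le _ _).trans ((hy m (hom_support h.homQ hm)).1 r))
      (fun i => by
        rw [e0]
        exact Finset.sum_eq_zero fun m hm => by
          rw [(hy m (hom_support h.homQ hm)).2.1, mul_zero])
      (by
        rw [e0, Finset.sum_mul]
        refine Finset.sum_congr rfl fun m hm => ?_
        rw [(hy m (hom_support h.homQ hm)).2.2.1]
        ring)
      (natDegree_sum_le_of_forall_le _ _ fun m hm => by
        rw [← C_mul, natDegree_C])
      (by
        rw [e0, sub_mul, Finset.sum_mul]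
        have e2 : C c' * X ^ l = ∑ m ∈ Q.support, C (Q.coeff m) * mo m := by
          rw [← h.hQ, vl_sum]
          refine Finset.sum_congr rfl fun m _ => ?_
          simp only [hmo]
          rw [vl_mono, C_1, one_mul]
        rw [e2, ← Finset.sum_sub_distrib]
        refine Finset.sum_congr rfl fun m hm => ?_
        have h3 := (hy m (hom_support h.homQ hm)).2.2.2
        linear_combination C (Q.coeff m) * h3)
      (by
        refine (natDegree_sub_le _ _).trans (max_le ?_ (by rw [natDegree_C]))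
        exact natDegree_sum_le_of_forall_le _ _ fun m hm => by rw [← C_mul, natDegree_C])
      hlt1
    rw [lam_sum] at h1
    exact h1
  have hle : ∀ m : Fin (s + 3) →₀ ℕ, m.degree = b' + 2 → m i0 ≤ b' + 2 := by
    intro m hm
    rw [← hm]
    exact Finsupp.le_degree i0 m
  have hν0 : ν (Finsupp.single i0 (b' + 2)) = 0 := by
    have h1 : φ i0 ^ (b' + 2) * ∑ m ∈ Q.support, C (Q.coeff m) * ν m =
        ν (Finsupp.single i0 (b' + 2)) * vl φ Q := by
      rw [vl_sum, Finset.mul_sum, Finset.mul_sum]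
      refine Finset.sum_congr rfl fun m hm => ?_
      have hmd := hom_support h.homQ hm
      have h2 := cmp (b' + 2 - m i0) m hmd (by have := hle m hmd; omega)
      have h3 : mo m = ∏ i, φ i ^ m i := by
        simp only [hmo]
        rw [vl_mono, C_1, one_mul]
      rw [← h3]
      linear_combination C (Q.coeff m) * h2
    rw [hsum, mul_zero, h.hQ] at h1
    have h2 : (C c' * X ^ l : ℂ[X]) ≠ 0 :=
      mul_ne_zero (C_ne_zero.2 h.hc') (pow_ne_zero _ X_ne_zero)
    exact (mul_eq_zero.1 h1.symm).resolve_right h2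
  have hνz : ∀ m : Fin (s + 3) →₀ ℕ, m.degree = b' + 2 → ν m = 0 := by
    intro m hm
    have h1 := cmp (b' + 2 - m i0) m hm (by have := hle m hm; omega)
    rw [hν0, zero_mul] at h1
    exact (mul_eq_zero.1 h1).resolve_left (pow_ne_zero _ hφ0)
  -- the final relation
  have fin : ∀ j i : Fin (s + 3), ∃ Y : ℂ[X], Y.natDegree ≤ e ∧
      φ j ^ (b' + 2) * (C (k : ℂ) * φ i - C ((a' + 1 : ℕ) : ℂ) * tg φ i) = X ^ l * Y := by
    intro j i
    obtain ⟨y1, y2, y3, y4⟩ := hy (Finsupp.single j (b' + 2)) (Finsupp.degree_single _ _)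
    have h1 : lam Bi φ (y (Finsupp.single j (b' + 2))) = 0 :=
      hνz (Finsupp.single j (b' + 2)) (Finsupp.degree_single _ _)
    have h2 := congrFun (h.comb F y2 h1) i
    have h4 : gp Q φ ⬝ᵥ (y (Finsupp.single j (b' + 2))) =
        C (t' (Finsupp.single j (b' + 2))) * X ^ l - φ j ^ (b' + 2) := by
      rw [← y4, ← hmop]
      simp only [hmo]
      ring
    rw [h.gPu, h.gPv, h.gQu, h.gQv, y3, h4] at h2
    simp only [Pi.add_apply, Pi.smul_apply, smul_eq_mul, Pi.zero_apply] at h2
    set Y0 : ℂ[X] := C (((a' + 1 : ℕ) : ℂ) * c * (l * c') - k * c * (((b' + 2 : ℕ) : ℂ) * c')) *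
        y (Finsupp.single j (b' + 2)) i +
      C (k * c * t' (Finsupp.single j (b' + 2)) - t (Finsupp.single j (b' + 2)) * (l * c')) * φ i +
      C (t (Finsupp.single j (b' + 2)) * (((b' + 2 : ℕ) : ℂ) * c') -
        ((a' + 1 : ℕ) : ℂ) * c * t' (Finsupp.single j (b' + 2))) * tg φ i with hY0
    refine ⟨C c⁻¹ * Y0, ?_, ?_⟩
    · refine (natDegree_C_mul_le _ _).trans ?_
      rw [hY0]
      refine (natDegree_add_le _ _).trans (max_le ((natDegree_add_le _ _).trans (max_le ?_ ?_)) ?_)
      · exact (natDegree_C_mul_le _ _).trans (y1 i)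
      · exact (natDegree_C_mul_le _ _).trans (h.deg i)
      · exact (natDegree_C_mul_le _ _).trans (tg_deg h.deg i)
    · have h6 : (X ^ k : ℂ[X]) * (X ^ l * Y0) = X ^ k * (C c * (φ j ^ (b' + 2) *
          (C (k : ℂ) * φ i - C ((a' + 1 : ℕ) : ℂ) * tg φ i))) := by
        rw [hY0]
        simp only [C_sub, C_mul]
        simp only [C_mul] at h2
        linear_combination h2
      have h7 := mul_left_cancel₀ (pow_ne_zero k X_ne_zero) h6
      have h8 : (C c⁻¹ * C c : ℂ[X]) = 1 := by
        rw [← C_mul, inv_mul_cancel₀ h.hc, C_1]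
      linear_combination (-C c⁻¹) * h7 - (φ j ^ (b' + 2) *
        (C (k : ℂ) * φ i - C ((a' + 1 : ℕ) : ℂ) * tg φ i)) * h8
  have hU : ∀ i, C (k : ℂ) * φ i - C ((a' + 1 : ℕ) : ℂ) * tg φ i = 0 := by
    intro i
    obtain ⟨Y, -, hY⟩ := fin i0 i
    have hX : X ^ l ∣ C (k : ℂ) * φ i - C ((a' + 1 : ℕ) : ℂ) * tg φ i := by
      refine pow_dvd_right' (p := φ i0 ^ (b' + 2)) ?_ ⟨Y, hY⟩
      rw [coeff_zero_eq_eval_zero, eval_pow, ← coeff_zero_eq_eval_zero]
      exact pow_ne_zero _ hi0
    obtain ⟨W, hW⟩ := hX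
    obtain ⟨j, hj⟩ := h.h1
    obtain ⟨Y', hY'd, hY'⟩ := fin j i
    rw [hW] at hY'
    have h1 : φ j ^ (b' + 2) * W = Y' := by
      apply mul_left_cancel₀ (pow_ne_zero l (X_ne_zero (R := ℂ)))
      rw [← hY']
      ring
    by_contra hne
    have hW0 : W ≠ 0 := by
      rintro rfl
      rw [mul_zero] at hW
      exact hne hW
    have hdj : (φ j).natDegree = e :=
      le_antisymm (h.deg j) (le_natDegree_of_ne_zero hj)
    have hj0 : φ j ≠ 0 := fun h1 => hj (by rw [h1, coeff_zero])
    have h2 := congrArg natDegree h1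
    rw [natDegree_mul (pow_ne_zero _ hj0) hW0, natDegree_pow, hdj] at h2
    have h3 : e < (b' + 2) * e := by nlinarith
    omega
  -- conclusion
  have hcoef : ∀ i N, (k : ℂ) * (φ i).coeff N = ((a' + 1 : ℕ) : ℂ) * (N * (φ i).coeff N) := by
    intro i N
    have h1 := congrArg (fun p => coeff p N) (sub_eq_zero.1 (hU i))
    simp only [coeff_C_mul] at h1
    rw [h1]
    congr 1
    show (X * derivative (φ i)).coeff N = _
    cases N with
    | zero => simp
    | succ N =>
      rw [coeff_X_mul, coeff_derivative]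
      push_cast
      ring
  have hk0 : (k : ℂ) = 0 := by
    have h1 := hcoef i0 0
    rw [Nat.cast_zero, zero_mul, mul_zero] at h1
    exact (mul_eq_zero.1 h1).resolve_right hi0
  obtain ⟨j, hj⟩ := h.h1
  have h1 := hcoef j e
  rw [hk0, zero_mul] at h1
  have h2 : ((a' + 1 : ℕ) : ℂ) ≠ 0 := Nat.cast_ne_zero.2 (by omega)
  have h3 : (e : ℂ) ≠ 0 := Nat.cast_ne_zero.2 (by omega)
  exact mul_ne_zero h2 (mul_ne_zero h3 hj) h1.symm

end RC

end Pool.Agent.K9h3.CV
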