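import Pool.Agent.K9h3.CV.F

/-!
# Algebraic rigidity from derivations of the field of complex numbers
-/

set_option autoImplicit false

open Polynomial Matrix

namespace Pool.Agent.K9h3.CV

/-- the derivation acting on the coefficients of polynomials -/
noncomputable def cf (δ : Derivation ℤ ℂ ℂ) : Derivation ℤ ℂ[X] ℂ[X] :=
  letI : Differential ℂ := ⟨δ⟩
  Differential.mapCoeffs

theorem coeff_cf (δ : Derivation ℤ ℂ ℂ) (p : ℂ[X]) (i : ℕ) :
    (cf δ p).coeff i = δ (p.coeff i) := by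
  let _ : Differential ℂ := ⟨δ⟩
  exact Differential.coeff_mapCoeffs p i

theorem cf_C (δ : Derivation ℤ ℂ ℂ) (c : ℂ) : cf δ (C c) = C (δ c) := by
  ext n
  rw [coeff_cf, coeff_C, coeff_C]
  split_ifs
  · rfl
  · exact map_zero δ

theorem cf_deg (δ : Derivation ℤ ℂ ℂ) {p : ℂ[X]} {e : ℕ} (h : p.natDegree ≤ e) :
    (cf δ p).natDegree ≤ e := by
  rw [natDegree_le_iff_coeff_eq_zero]
  intro n hn
  rw [coeff_cf, coeff_eq_zero_of_natDegree_lt (lt_of_le_of_lt h hn), map_zero]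

theorem cf_CX (δ : Derivation ℤ ℂ ℂ) (c : ℂ) (k : ℕ) :
    cf δ (C c * X ^ k) = C (δ c) * X ^ k := by
  ext n
  rw [coeff_cf, coeff_CX, coeff_CX]
  split_ifs
  · rfl
  · exact map_zero δ

/-- a polynomial without nonzero roots is a monomial -/
theorem monomial_of_roots {p : ℂ[X]} (hp : ∀ t : ℂ, t ≠ 0 → p.eval t ≠ 0) :
    ∃ (c : ℂ) (k : ℕ), c ≠ 0 ∧ p = C c * X ^ k := by
  have hp0 : p ≠ 0 := by
    rintro rfl
    exact hp 1 one_ne_zero eval_zero
  obtain ⟨q, hq, hq0⟩ := exists_eq_pow_rootMultiplicity_mul_and_not_dvd p hp0 0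
  rw [C_0, sub_zero] at hq hq0
  have hdeg : q.degree = 0 := by
    by_contra hd
    obtain ⟨t, ht⟩ := IsAlgClosed.exists_root q hd
    by_cases h0 : t = 0
    · subst h0
      apply hq0
      rw [X_dvd_iff, coeff_zero_eq_eval_zero]
      exact ht
    · apply hp t h0
      rw [hq, eval_mul, ht, mul_zero]
  have hc := eq_C_of_degree_eq_zero hdeg
  refine ⟨q.coeff 0, rootMultiplicity 0 p, ?_, ?_⟩
  · exact fun h0 => hq0 (X_dvd_iff.2 h0)
  · rw [← hc, mul_comm]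
    exact hq

/-- removing the common zero at the origin -/
theorem strip {n : ℕ} {ψ : Fin n → ℂ[X]} (h : ∃ i, ψ i ≠ 0) :
    ∃ (N : ℕ) (φ : Fin n → ℂ[X]), (∀ i, ψ i = X ^ N * φ i) ∧ ∃ i, (φ i).coeff 0 ≠ 0 := by
  classical
  obtain ⟨i0, hi0⟩ := h
  have hbd : ∀ N, (∀ i, X ^ N ∣ ψ i) → N ≤ (ψ i0).natDegree := by
    intro N hN
    have h1 := natDegree_le_of_dvd (hN i0) hi0
    rwa [natDegree_X_pow] at h1
  set N := Nat.findGreatest (fun N => ∀ i, (X ^ N : ℂ[X]) ∣ ψ i) (ψ i0).natDegree with hN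
  have h1 : ∀ i, (X ^ N : ℂ[X]) ∣ ψ i := by
    have := Nat.findGreatest_spec (P := fun N => ∀ i, (X ^ N : ℂ[X]) ∣ ψ i)
      (Nat.zero_le (ψ i0).natDegree) (fun i => by simp)
    exact this
  choose φ hφ using h1
  refine ⟨N, φ, hφ, ?_⟩
  by_contra hcon
  push Not at hcon
  have h2 : ∀ i, (X ^ (N + 1) : ℂ[X]) ∣ ψ i := by
    intro i
    rw [hφ i, pow_succ]
    exact mul_dvd_mul_left _ (X_dvd_iff.2 (hcon i))
  have h3 := Nat.le_findGreatest (P := fun N => ∀ i, (X ^ N : ℂ[X]) ∣ ψ i) (hbd _ h2) h2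
  omega

theorem hom_smul {n d : ℕ} {F : MvPolynomial (Fin n) ℂ} (hF : F.IsHomogeneous d) (c : ℂ)
    (x : Fin n → ℂ) : MvPolynomial.eval (c • x) F = c ^ d * MvPolynomial.eval x F := by
  rw [eval_sum, eval_sum, Finset.mul_sum]
  refine Finset.sum_congr rfl fun m hm => ?_
  have h1 : ∏ i, (c • x) i ^ m i = c ^ d * ∏ i, x i ^ m i := by
    simp only [Pi.smul_apply, smul_eq_mul, mul_pow]
    rw [Finset.prod_mul_distrib, Finset.prod_pow_eq_pow_sum, ← Finsupp.degree_eq_sum,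
      hom_support hF hm]
  rw [h1]
  ring

variable {s : ℕ}

/-- **algebraic rigidity** -/
theorem core {R : Fin s → MvPolynomial (Fin (s + 3)) ℂ} {P Q : MvPolynomial (Fin (s + 3)) ℂ}
    {d : Fin s → ℕ} {a b : ℕ} (homR : ∀ i, (R i).IsHomogeneous (d i)) (posR : ∀ i, 1 ≤ d i)
    (homP : P.IsHomogeneous a) (homQ : Q.IsHomogeneous b)
    (sR : ∀ x : Fin (s + 3) → ℂ, x ≠ 0 → (∀ i, MvPolynomial.eval x (R i) = 0) →
      LinearIndependent ℂ (Gx R x).row)
    (sP : ∀ x : Fin (s + 3) → ℂ, x ≠ 0 → (∀ i, MvPolynomial.eval x (R i) = 0) →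
      MvPolynomial.eval x P = 0 → ∀ y : Fin s → ℂ, gd P x ≠ y ᵥ* Gx R x)
    (sQ : ∀ x : Fin (s + 3) → ℂ, x ≠ 0 → (∀ i, MvPolynomial.eval x (R i) = 0) →
      MvPolynomial.eval x Q = 0 → ∀ y : Fin s → ℂ, gd Q x ≠ y ᵥ* Gx R x)
    (tr : ∀ x : Fin (s + 3) → ℂ, x ≠ 0 → (∀ i, MvPolynomial.eval x (R i) = 0) →
      MvPolynomial.eval x P = 0 → MvPolynomial.eval x Q = 0 →
      ∀ (c : ℂ) (y : Fin s → ℂ), gd Q x ≠ c • gd P x + y ᵥ* Gx R x)
    (hder : ∀ m : Fin (s + 3) →₀ ℕ, m.degree = b → ∃ δ : Derivation ℤ ℂ ℂ,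
      (∀ i m', δ ((R i).coeff m') = 0) ∧ (∀ m', δ (P.coeff m') = 0) ∧
      ∀ m', δ (Q.coeff m') = (MvPolynomial.monomial m (1 : ℂ)).coeff m')
    (ha : 1 ≤ a) (hb : 2 ≤ b) (hab : s + 5 ≤ a + b + ∑ i, d i)
    (ψ : Fin (s + 3) → ℂ[X])
    (hψ : ∀ t : ℂ, t ≠ 0 → (∀ i, MvPolynomial.eval (fun i => (ψ i).eval t) (R i) = 0) ∧
      MvPolynomial.eval (fun i => (ψ i).eval t) P ≠ 0 ∧
      MvPolynomial.eval (fun i => (ψ i).eval t) Q ≠ 0)
    (t' t : ℂ) (i j : Fin (s + 3)) :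
    (ψ i).eval t' * (ψ j).eval t = (ψ j).eval t' * (ψ i).eval t := by
  have hne : ∃ i, ψ i ≠ 0 := by
    by_contra hcon
    push Not at hcon
    apply (hψ 1 one_ne_zero).2.1
    have h1 : (fun i => (ψ i).eval (1 : ℂ)) = 0 := funext fun i => by rw [hcon i]; simp
    rw [h1, MvPolynomial.eval_zero, MvPolynomial.constantCoeff_eq]
    exact homP.coeff_eq_zero (by rw [map_zero]; omega)
  obtain ⟨N, φ, hφ, h0⟩ := strip hne
  have hsc : ∀ t : ℂ, (fun i => (ψ i).eval t) = t ^ N • (fun i => (φ i).eval t : Fin (s + 3) → ℂ) := by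
    intro t
    funext i
    rw [hφ i, eval_mul, eval_pow, eval_X]
    rfl
  have hval : ∀ {F : MvPolynomial (Fin (s + 3)) ℂ} {n : ℕ}, F.IsHomogeneous n → ∀ t : ℂ,
      MvPolynomial.eval (fun i => (ψ i).eval t) F = (t ^ N) ^ n * (vl φ F).eval t := by
    intro F n hF t
    rw [hsc, hom_smul hF, vl_eval]
  have hP1 : ∀ t : ℂ, t ≠ 0 → (vl φ P).eval t ≠ 0 := by
    intro t ht h1
    apply (hψ t ht).2.1
    rw [hval homP, h1, mul_zero]
  have hQ1 : ∀ t : ℂ, t ≠ 0 → (vl φ Q).eval t ≠ 0 := by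
    intro t ht h1
    apply (hψ t ht).2.2
    rw [hval homQ, h1, mul_zero]
  have hR1 : ∀ i, vl φ (R i) = 0 := by
    intro i
    refine Polynomial.eq_zero_of_infinite_isRoot _ ?_
    refine Set.Infinite.mono (s := {0}ᶜ) ?_ (Set.finite_singleton (0 : ℂ)).infinite_compl
    intro t ht
    have ht0 : t ≠ 0 := ht
    have h1 := (hψ t ht0).1 i
    rw [hval (homR i)] at h1
    exact (mul_eq_zero.1 h1).resolve_left (pow_ne_zero _ (pow_ne_zero _ ht0))
  obtain ⟨c, k', hc, hPc⟩ := monomial_of_roots hP1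
  obtain ⟨c', l, hc', hQc⟩ := monomial_of_roots hQ1
  obtain ⟨j0, hj0⟩ := Finite.exists_max (fun i => (φ i).natDegree)
  rcases Nat.eq_zero_or_pos (φ j0).natDegree with he | he
  · have hcst : ∀ i, ∃ c, φ i = C c := fun i =>
      ⟨(φ i).coeff 0, eq_C_of_natDegree_eq_zero (Nat.le_zero.1 (he ▸ hj0 i))⟩
    obtain ⟨ci, hci⟩ := hcst i
    obtain ⟨cj, hcj⟩ := hcst j
    rw [hφ i, hφ j, hci, hcj]
    simp only [eval_mul, eval_pow, eval_X, eval_C]
    ring
  · exfalso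
    have hrc : RC R P Q d a b (φ j0).natDegree k' l c c' φ :=
      { homR := homR
        posR := posR
        homP := homP
        homQ := homQ
        sR := sR
        sP := sP
        sQ := sQ
        tr := tr
        deg := hj0
        hR := hR1
        hP := hPc
        hQ := hQc
        hc := hc
        hc' := hc'
        h0 := h0
        h1 := ⟨j0, by
          rw [coeff_natDegree]
          intro h1
          rw [leadingCoeff_eq_zero] at h1
          rw [h1, natDegree_zero] at he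
          exact lt_irrefl 0 he⟩ }
    refine hrc.rigid ha hb hab he ?_
    intro m0 hm0
    obtain ⟨δ, d1, d2, d3⟩ := hder m0 hm0
    refine ⟨fun i => cf δ (φ i), δ c, δ c', fun i => cf_deg δ (hj0 i), fun i => ?_, ?_, ?_⟩
    · have h3 := chain (cf δ) δ (map_zero δ) (fun x y => map_add δ x y) (cf_C δ) φ (R i) 0
        (fun m => by rw [d1, MvPolynomial.coeff_zero])
      rw [vl_z, zero_add, hR1, map_zero] at h3
      exact h3.symm
    · have h3 := chain (cf δ) δ (map_zero δ) (fun x y => map_add δ x y) (cf_C δ) φ P 0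
        (fun m => by rw [d2, MvPolynomial.coeff_zero])
      rw [vl_z, zero_add, hPc, cf_CX] at h3
      exact h3.symm
    · have h3 := chain (cf δ) δ (map_zero δ) (fun x y => map_add δ x y) (cf_C δ) φ Q _
        (fun m => (d3 m).symm)
      rw [hQc, cf_CX] at h3
      rw [h3, add_comm]

end Pool.Agent.K9h3.CV
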