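import Pool.Agent.K9h3.CV.G
import Pool.Agent.K9h84.CI.VgD

/-!
# Algebraic rigidity for very general sections of complete intersection surfaces
-/

set_option autoImplicit false

open Matrix

namespace Pool.Agent.K9h3.CV

open Pool.Agent.K9h84.CI (PP VV SmoothPair AlgRigid Gen CoeffIn mvD coeff_mvD cons_zero_iff
  grad_cons SmoothCI ForVeryGeneral HypEmbedded)

variable {s : ℕ} {R : Fin s → PP s} {P Q : PP s} {d : Fin s → ℕ} {a b : ℕ}

theorem vecMul_mem (y : Fin s → ℂ) (x : VV s) :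
    y ᵥ* Gx R x ∈ Submodule.span ℂ (Set.range fun i => Pool.Agent.K9h84.CI.gr (R i) x) := by
  have h1 : y ᵥ* Gx R x = ∑ i, y i • Pool.Agent.K9h84.CI.gr (R i) x := by
    funext j
    rw [Finset.sum_apply]
    rfl
  rw [h1]
  exact Submodule.sum_mem _ fun i _ => Submodule.smul_mem _ _ (Submodule.subset_span ⟨i, rfl⟩)

/-- **algebraic hyperbolicity for a very general second section** -/
theorem algRigid {K : Subfield ℂ} (hRK : ∀ i, CoeffIn K (R i)) (hPK : CoeffIn K P)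
    (h : Gen K b Q) (hsm : SmoothPair R P Q d a b) (ha : 1 ≤ a) (hb : 2 ≤ b)
    (hab : s + 5 ≤ a + b + ∑ i, d i) : AlgRigid R P Q := by
  intro ψ hψ t' t i j _ _
  have hsP : ∀ x : Fin (s + 3) → ℂ, x ≠ 0 → (∀ i, MvPolynomial.eval x (R i) = 0) →
      MvPolynomial.eval x P = 0 → ∀ y : Fin s → ℂ, gd P x ≠ y ᵥ* Gx R x := by
    intro x hx h0 hP y hy
    have h1 := hsm.smoothP x hx (cons_zero_iff.2 ⟨hP, h0⟩)
    rw [grad_cons, linearIndependent_finCons] at h1
    apply h1.2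
    have h2 := vecMul_mem (R := R) y x
    rw [← hy] at h2
    exact h2
  have hsQ : ∀ x : Fin (s + 3) → ℂ, x ≠ 0 → (∀ i, MvPolynomial.eval x (R i) = 0) →
      MvPolynomial.eval x Q = 0 → ∀ y : Fin s → ℂ, gd Q x ≠ y ᵥ* Gx R x := by
    intro x hx h0 hQ y hy
    have h1 := hsm.smoothQ x hx (cons_zero_iff.2 ⟨hQ, h0⟩)
    rw [grad_cons, linearIndependent_finCons] at h1
    apply h1.2
    have h2 := vecMul_mem (R := R) y x
    rw [← hy] at h2
    exact h2
  refine core hsm.homR hsm.posR hsm.homP hsm.homQ (fun x hx h0 => hsm.smooth x hx h0) hsP hsQ ?_ ?_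
    ha hb hab ψ hψ t' t i j
  · intro x hx h0 hP hQ c y hy
    by_cases hc : c = 0
    · rw [hc, zero_smul, zero_add] at hy
      exact hsQ x hx h0 hQ y hy
    · have h1 := hsm.transversal x hx (cons_zero_iff.2 ⟨hP, cons_zero_iff.2 ⟨hQ, h0⟩⟩)
      rw [grad_cons, linearIndependent_finCons] at h1
      apply h1.2
      have e : (fun i => Pool.Agent.K9h84.CI.gr ((Fin.cons (α := fun _ => PP s) Q R :
          Fin (s + 1) → PP s) i) x) = Fin.cons (α := fun _ => VV s)
          (Pool.Agent.K9h84.CI.gr Q x) (fun i => Pool.Agent.K9h84.CI.gr (R i) x) :=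
        grad_cons R Q x
      rw [e]
      have h2 : Pool.Agent.K9h84.CI.gr P x = c⁻¹ • (gd Q x - y ᵥ* Gx R x) := by
        rw [hy, add_sub_cancel_right, smul_smul, inv_mul_cancel₀ hc, one_smul]
        rfl
      rw [h2]
      refine Submodule.smul_mem _ _ (Submodule.sub_mem _ (Submodule.subset_span ⟨0, rfl⟩) ?_)
      refine Submodule.span_mono ?_ (vecMul_mem (R := R) y x)
      rintro _ ⟨i, rfl⟩
      exact ⟨i.succ, rfl⟩
  · intro m hm
    obtain ⟨D, hD⟩ := h.exists_der (G := MvPolynomial.monomial m 1) hsm.homQ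
      (MvPolynomial.isHomogeneous_monomial 1 hm)
    let δ : Derivation ℤ ℂ ℂ := Derivation.mk' (D : ℂ →+ ℂ).toIntLinearMap fun x y => D.leibniz x y
    have hδ : ∀ x, δ x = D x := fun x => rfl
    refine ⟨δ, fun i m' => ?_, fun m' => ?_, fun m' => ?_⟩
    · rw [hδ]
      exact D.map_algebraMap (⟨(R i).coeff m', hRK i m'⟩ : K)
    · rw [hδ]
      exact D.map_algebraMap (⟨P.coeff m', hPK m'⟩ : K)
    · rw [hδ, ← hD, coeff_mvD]

/-- **theorem on very general sections** -/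
theorem veryGeneral (ha : 1 ≤ a) (hb : 2 ≤ b) (hab : s + 5 ≤ a + b + ∑ i, d i)
    (hR : ∀ i, (R i).IsHomogeneous (d i)) (hd : ∀ i, 1 ≤ d i) (hP : P.IsHomogeneous a)
    (hS : SmoothCI R)
    (hSP : SmoothCI (Fin.cons (α := fun _ => MvPolynomial (Fin (s + 3)) ℂ) P R)) :
    ForVeryGeneral s b (fun Q => SmoothPair R P Q d a b ∧ HypEmbedded R P Q) :=
  Pool.Agent.K9h84.CI.veryGeneral_of (fun _ _ _ hRK hPK h hsm =>
    algRigid hRK hPK h hsm ha hb hab) ha hb hab hR hd hP hS hSP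

end Pool.Agent.K9h3.CV
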